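import Mathlib

set_option autoImplicit false
set_option linter.unusedSectionVars false

namespace Pool.Agent.Results.MP_ce98d8_co.ThreeFifths

open Finset
open scoped Classical

/-- `G` is tight of degree `k`: every vertex has exactly `k` neighbours, there is no triangle, and
the largest independent set has exactly `k` vertices. -/
def Tight {V : Type} [Fintype V] (G : SimpleGraph V) (k : ℕ) : Prop :=
  (∀ v : V, (G.neighborSet v).ncard = k) ∧ G.CliqueFree 3 ∧ G.indepNum = k

noncomputable section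

/-- A finite linear space without triangles, given by the lines `ln x j` through each
point `x`: every point is on `t + 1` lines, every line has `s + 1` points, and there are
`(t + 1) * (s * t + 1)` lines. -/
structure Geo {P L J : Type} [Fintype P] [Fintype L] [Fintype J]
    (ln : P → J → L) (s t : ℕ) : Prop where
  cardJ : Fintype.card J = t + 1
  cardL : Fintype.card L = (t + 1) * (s * t + 1)
  inj : ∀ x j j', ln x j = ln x j' → j = j'
  lin : ∀ x y j j' i i', x ≠ y → ln x j = ln y j' → ln x i = ln y i' → j = i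
  tri : ∀ x y z j1 j2 i1 i2 k1 k2, x ≠ y → y ≠ z → x ≠ z → ln x j1 = ln y j2 →
    ln y i1 = ln z i2 → ln x k1 = ln z k2 → j1 = k1
  size : ∀ l : L, (univ.filter (fun x => ∃ j, ln x j = l)).card = s + 1

section Graph

variable {P L J R : Type} [Fintype P] [Fintype L] [Fintype J] [Fintype R]

/-- The sign of a vertex on the line number `j` through its point. -/
def sg (M : R → J → Bool) (r : P → J → Bool) (u : P × R × Bool) (j : J) : Bool :=
  xor u.2.2 (xor (M u.2.1 j) (r u.1 j))

/-- The adjacency relation. -/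
def Ad (ln : P → J → L) (M : R → J → Bool) (r : P → J → Bool) (u v : P × R × Bool) : Prop :=
  (u.1 = v.1 ∧ u.2.1 = v.2.1 ∧ u.2.2 ≠ v.2.2) ∨
  (u.1 ≠ v.1 ∧ ∃ j j', ln u.1 j = ln v.1 j' ∧ sg M r u j ≠ sg M r v j')

variable {ln : P → J → L} {s t : ℕ} {M : R → J → Bool} {r : P → J → Bool}

theorem Ad_symm (u v : P × R × Bool) (h : Ad ln M r u v) : Ad ln M r v u := by
  rcases h with ⟨a, b, c⟩ | ⟨a, j, j', h1, h2⟩
  · exact Or.inl ⟨a.symm, b.symm, c.symm⟩
  · exact Or.inr ⟨a.symm, j', j, h1.symm, h2.symm⟩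

theorem Ad_irr (u : P × R × Bool) : ¬ Ad ln M r u u := by
  rintro (⟨a, b, c⟩ | ⟨a, j, j', h1, h2⟩)
  · exact c rfl
  · exact a rfl

theorem sg_flip (u v : P × R × Bool) (h1 : u.1 = v.1) (h2 : u.2.1 = v.2.1) (h3 : u.2.2 ≠ v.2.2)
    (j : J) : sg M r u j ≠ sg M r v j := by
  unfold sg
  rw [h1, h2]
  intro h
  apply h3
  simpa using h

theorem b3 (a b c : Bool) (h1 : a ≠ b) (h2 : b ≠ c) (h3 : a ≠ c) : False := by
  cases a <;> cases b <;> cases c <;> simp at h1 h2 h3

/-- Two vertices of one point, a third of another point. -/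
theorem Ad_tri_aux (H : Geo ln s t) (u v w : P × R × Bool) (h1 : u.1 = v.1)
    (huv : Ad ln M r u v) (hvw : Ad ln M r v w) (huw : Ad ln M r u w) : False := by
  have h2 : u.2.1 = v.2.1 ∧ u.2.2 ≠ v.2.2 := by
    rcases huv with ⟨a, b, c⟩ | ⟨a, -⟩
    · exact ⟨b, c⟩
    · exact absurd h1 a
  rcases hvw with ⟨a, b, c⟩ | ⟨a, j, j', e1, e2⟩
  · rcases huw with ⟨a', b', c'⟩ | ⟨a', -⟩
    · exact b3 _ _ _ h2.2 c c'
    · exact a' (h1.trans a)
  · rcases huw with ⟨a', b', c'⟩ | ⟨a', k, k', f1, f2⟩
    · exact a (h1.symm.trans a')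
    · rw [h1] at f1
      have hjk : j = k := H.lin _ _ _ _ _ _ a e1 f1
      subst hjk
      have hjk' : j' = k' := H.inj _ _ _ (e1.symm.trans f1)
      subst hjk'
      exact b3 _ _ _ (sg_flip u v h1 h2.1 h2.2 j) e2 f2

theorem Ad_tri (H : Geo ln s t) (u v w : P × R × Bool)
    (huv : Ad ln M r u v) (hvw : Ad ln M r v w) (huw : Ad ln M r u w) : False := by
  by_cases h1 : u.1 = v.1
  · exact Ad_tri_aux H u v w h1 huv hvw huw
  · by_cases h2 : v.1 = w.1
    · exact Ad_tri_aux H v w u h2 hvw (Ad_symm _ _ huw) (Ad_symm _ _ huv)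
    · by_cases h3 : u.1 = w.1
      · exact Ad_tri_aux H u w v h3 huw (Ad_symm _ _ hvw) huv
      · rcases huv with ⟨a, -⟩ | ⟨-, j1, j2, e1, e2⟩
        · exact h1 a
        rcases hvw with ⟨a, -⟩ | ⟨-, i1, i2, f1, f2⟩
        · exact h2 a
        rcases huw with ⟨a, -⟩ | ⟨-, k1, k2, g1, g2⟩
        · exact h3 a
        have q1 : j1 = k1 := H.tri _ _ _ _ _ _ _ _ _ h1 h2 h3 e1 f1 g1
        subst q1
        have q2 : j2 = i1 := H.lin _ _ _ _ _ _ h2 (e1.symm.trans g1) f1
        subst q2
        have q3 : i2 = k2 := H.inj _ _ _ (f1.symm.trans (e1.symm.trans g1))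
        subst q3
        exact b3 _ _ _ e2 f2 g2

/-- The points collinear with `x`. -/
theorem card_col (H : Geo ln s t) (x : P) :
    (univ.filter (fun y => x ≠ y ∧ ∃ j j', ln x j = ln y j')).card = (t + 1) * s := by
  have h1 : (univ.filter (fun y => x ≠ y ∧ ∃ j j', ln x j = ln y j')) =
      (univ : Finset J).biUnion (fun j => (univ.filter (fun y => ∃ j', ln y j' = ln x j)).erase x)
      := by
    ext y
    simp only [mem_filter, mem_univ, true_and, mem_biUnion, mem_erase]
    constructor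
    · rintro ⟨a, j, j', h⟩
      exact ⟨j, a.symm, j', h.symm⟩
    · rintro ⟨j, a, j', h⟩
      exact ⟨a.symm, j, j', h.symm⟩
  rw [h1, card_biUnion]
  · have h2 : ∀ j ∈ (univ : Finset J),
        ((univ.filter (fun y => ∃ j', ln y j' = ln x j)).erase x).card = s := by
      intro j _
      rw [card_erase_of_mem, H.size]
      · rfl
      · simp
    rw [sum_congr rfl h2, sum_const, card_univ, H.cardJ, smul_eq_mul]
  · intro j _ j' _ hjj
    rw [Function.onFun, disjoint_left]
    intro y hy hy'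
    simp only [mem_erase, mem_filter, mem_univ, true_and] at hy hy'
    obtain ⟨a, i, hi⟩ := hy
    obtain ⟨-, i', hi'⟩ := hy'
    exact hjj (H.lin _ _ _ _ _ _ (Ne.symm a) hi.symm hi'.symm)

theorem card_nbr (H : Geo ln s t) (u : P × R × Bool) :
    (univ.filter (fun v => Ad ln M r u v)).card = Fintype.card R * ((t + 1) * s) + 1 := by
  have hnot : (u.1, u.2.1, !u.2.2) ∉ univ.filter (fun v : P × R × Bool => u.1 ≠ v.1 ∧
      ∃ j j', ln u.1 j = ln v.1 j' ∧ sg M r u j ≠ sg M r v j') := by
    simp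
  have h1 : univ.filter (fun v => Ad ln M r u v) =
      insert (u.1, u.2.1, !u.2.2) (univ.filter (fun v : P × R × Bool => u.1 ≠ v.1 ∧
        ∃ j j', ln u.1 j = ln v.1 j' ∧ sg M r u j ≠ sg M r v j')) := by
    ext v
    obtain ⟨y, i, e⟩ := v
    obtain ⟨x, k, f⟩ := u
    rw [mem_filter, mem_insert, mem_filter]
    simp only [Ad, mem_univ, true_and, Prod.mk.injEq]
    constructor
    · rintro (⟨a, b, c⟩ | h)
      · left
        refine ⟨a.symm, b.symm, ?_⟩
        cases e <;> cases f <;> simp at c ⊢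
      · exact Or.inr h
    · rintro (⟨a, b, c⟩ | h)
      · left
        refine ⟨a.symm, b.symm, ?_⟩
        cases e <;> cases f <;> simp at c ⊢
      · exact Or.inr h
  rw [h1, card_insert_of_notMem hnot]
  congr 1
  rw [← card_col H u.1, mul_comm]
  set S := univ.filter (fun y => u.1 ≠ y ∧ ∃ j j', ln u.1 j = ln y j') with hS
  have h2 : Fintype.card R = (univ : Finset R).card := rfl
  rw [h2, ← card_product]
  apply card_bij (fun v _ => (v.1, v.2.1))
  · rintro ⟨y, i, e⟩ hv
    simp only [mem_filter, mem_univ, true_and] at hv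
    obtain ⟨a, j, j', h, -⟩ := hv
    simp only [hS, mem_product, mem_filter, mem_univ, true_and, and_true]
    exact ⟨a, j, j', h⟩
  · rintro ⟨y, i, e⟩ hv ⟨y', i', e'⟩ hv' heq
    simp only [Prod.mk.injEq] at heq
    obtain ⟨rfl, rfl⟩ := heq
    simp only [mem_filter, mem_univ, true_and] at hv hv'
    obtain ⟨a, j, j', h, hh⟩ := hv
    obtain ⟨-, k, k', g, gg⟩ := hv'
    have q1 : j = k := H.lin _ _ _ _ _ _ a h g
    subst q1
    have q2 : j' = k' := H.inj _ _ _ (h.symm.trans g)
    subst q2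
    by_contra hne
    have he : e ≠ e' := by
      intro hee
      exact hne (by rw [hee])
    exact b3 _ _ _ (sg_flip (M := M) (r := r) (y, i, e) (y, i, e') rfl rfl he j')
      (Ne.symm gg) (Ne.symm hh)
  · rintro ⟨y, i⟩ hy
    simp only [hS, mem_product, mem_filter, mem_univ, true_and, and_true] at hy
    obtain ⟨a, j, j', h⟩ := hy
    refine ⟨(y, i, xor (!sg M r u j) (xor (M i j') (r y j'))), ?_, rfl⟩
    simp only [mem_filter, mem_univ, true_and]
    refine ⟨a, j, j', h, ?_⟩
    simp only [sg]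
    generalize (xor u.2.2 (xor (M u.2.1 j) (r u.1 j))) = aa
    generalize (M i j') = bb
    generalize (r y j') = cc
    cases aa <;> cases bb <;> cases cc <;> simp

end Graph

section Ind

variable {P L J R : Type} [Fintype P] [Fintype L] [Fintype J] [Fintype R]

/-- The lines numbered by `C` through the points of `Y`. -/
def Ln (ln : P → J → L) (Y : Finset P) (C : P → Finset J) : Finset L :=
  Y.biUnion (fun x => (C x).image (ln x))

/-- The random signs admit no bad configuration. -/
def NotBad (ln : P → J → L) (M : R → J → Bool) (r : P → J → Bool) (t m : ℕ) : Prop :=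
  ∀ (Y : Finset P) (C : P → Finset J) (e : P → R × Bool), 2 ≤ Y.card →
    (∀ x ∈ Y, m * (t + 1) < t + m * (C x).card) →
    (∀ x ∈ Y, ∀ y ∈ Y, ∀ j ∈ C x, ∀ j' ∈ C y, ln x j = ln y j' →
      sg M r (x, e x) j = sg M r (y, e y) j') →
    t * Y.card + m * (t + 1) + m * ∑ x ∈ Y, (C x).card ≤
      m * (Ln ln Y C).card + m * (Y.card * (t + 1)) + t

/-- The property of the base code. -/
def Code (M : R → J → Bool) (t m : ℕ) : Prop :=
  ∀ (T : Finset (R × Bool)) (C : Finset J), 2 ≤ T.card →
    (∀ a ∈ T, ∀ b ∈ T, a.1 = b.1 → a = b) →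
    (∀ a ∈ T, ∀ b ∈ T, ∀ j ∈ C, xor a.2 (M a.1 j) = xor b.2 (M b.1 j)) →
    T.card * t + m * C.card ≤ m * (t + 1)

variable {ln : P → J → L} {s t m : ℕ} {M : R → J → Bool} {r : P → J → Bool}

theorem ind_bound (H : Geo ln s t) (hs : 1 ≤ s) (ht : 1 ≤ t) (hm : Fintype.card R = m)
    (hcode : Code M t m) (hbad : NotBad ln M r t m) (I : Finset (P × R × Bool))
    (hI : ∀ u ∈ I, ∀ v ∈ I, ¬ Ad ln M r u v) : I.card ≤ m * ((t + 1) * s) + 1 := by
  -- the basic objects
  set X : Finset P := I.image Prod.fst with hX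
  set F : Finset L := univ.filter (fun l => 2 ≤ (X.filter (fun x => ∃ j, ln x j = l)).card)
    with hF
  set C : P → Finset J := fun x => univ.filter (fun j => ln x j ∈ F) with hC
  set D : P → Finset J := fun x => univ.filter (fun j => ln x j ∉ F) with hD
  set N : P → ℕ := fun x => (I.filter (fun u => u.1 = x)).card with hN
  have hCD : ∀ x, (C x).card + (D x).card = t + 1 := by
    intro x
    rw [← H.cardJ, ← card_univ]
    exact card_filter_add_card_filter_not _
  -- consistency of signs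
  have cons : ∀ u ∈ I, ∀ v ∈ I, u.1 ≠ v.1 → ∀ j j', ln u.1 j = ln v.1 j' →
      sg M r u j = sg M r v j' := by
    intro u hu v hv huv j j' hj
    by_contra hne
    exact hI u hu v hv (Or.inr ⟨huv, j, j', hj, hne⟩)
  have same : ∀ u ∈ I, ∀ v ∈ I, u.1 = v.1 → ∀ j ∈ C u.1, sg M r u j = sg M r v j := by
    intro u hu v hv huv j hj
    simp only [hC, hF, mem_filter, mem_univ, true_and] at hj
    obtain ⟨y, hy, hyu⟩ := exists_mem_ne (lt_of_lt_of_le one_lt_two hj) u.1
    simp only [mem_filter, hX, mem_image] at hy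
    obtain ⟨⟨w, hw, hwy⟩, j', hj'⟩ := hy
    subst hwy
    have e1 := cons u hu w hw (Ne.symm hyu) j j' hj'.symm
    have e2 := cons v hv w hw (by rw [← huv]; exact Ne.symm hyu) j j' (by rw [← huv]; exact hj'.symm)
    rw [e1, e2]
  -- N ≤ m
  have hNm : ∀ x, N x ≤ m := by
    intro x
    rw [← hm, ← card_univ]
    apply card_le_card_of_injOn (fun u => u.2.1)
    · intro u _
      simp
    · intro u hu v hv huv
      rw [Finset.mem_coe, mem_filter] at hu hv
      by_contra hne
      apply hI u hu.1 v hv.1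
      left
      refine ⟨hu.2.trans hv.2.symm, huv, ?_⟩
      intro h3
      apply hne
      ext
      · exact hu.2.trans hv.2.symm
      · exact huv
      · rw [h3]
  have hNpos : ∀ x ∈ X, 1 ≤ N x := by
    intro x hx
    rw [hX, mem_image] at hx
    obtain ⟨u, hu, hux⟩ := hx
    exact card_pos.2 ⟨u, mem_filter.2 ⟨hu, hux⟩⟩
  have hIsum : I.card = ∑ x ∈ X, N x := card_eq_sum_card_image Prod.fst I
  -- counting lines
  have F3 : ∑ x ∈ X, (D x).card + F.card ≤ (t + 1) * (s * t + 1) := by
    have h1 : (X.biUnion (fun x => (D x).image (ln x))).card = ∑ x ∈ X, (D x).card := by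
      rw [card_biUnion]
      · apply sum_congr rfl
        intro x _
        exact card_image_of_injective _ (fun j j' h => H.inj x j j' h)
      · intro x hx y hy hxy
        rw [Function.onFun, disjoint_left]
        intro l hl hl'
        rw [mem_image] at hl hl'
        obtain ⟨j, hj, hjl⟩ := hl
        obtain ⟨j', hj', hjl'⟩ := hl'
        simp only [hD, mem_filter, mem_univ, true_and] at hj
        apply hj
        rw [hjl, hF, mem_filter]
        refine ⟨mem_univ _, ?_⟩
        have : 1 < (X.filter (fun x => ∃ j, ln x j = l)).card := by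
          rw [one_lt_card]
          exact ⟨x, mem_filter.2 ⟨hx, j, hjl⟩, y, mem_filter.2 ⟨hy, j', hjl'⟩, hxy⟩
        exact this
    rw [← h1, ← card_union_of_disjoint, ← H.cardL]
    · exact card_le_univ _
    · rw [disjoint_left]
      intro l hl hlF
      rw [mem_biUnion] at hl
      obtain ⟨x, _, hl⟩ := hl
      rw [mem_image] at hl
      obtain ⟨j, hj, rfl⟩ := hl
      simp only [hD, mem_filter, mem_univ, true_and] at hj
      exact hj hlF
  have F3' : ∑ x ∈ X, (C x).card ≤ F.card * (s + 1) := by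
    have h1 : ∀ x ∈ X, (C x).card ≤ (bipartiteAbove (fun x l => ∃ j, ln x j = l) F x).card := by
      intro x _
      rw [← card_image_of_injective (C x) (fun j j' h => H.inj x j j' h)]
      apply card_le_card
      intro l hl
      rw [mem_image] at hl
      obtain ⟨j, hj, rfl⟩ := hl
      simp only [hC, mem_filter, mem_univ, true_and] at hj
      exact mem_filter.2 ⟨hj, j, rfl⟩
    refine (sum_le_sum h1).trans ?_
    rw [sum_card_bipartiteAbove_eq_sum_card_bipartiteBelow]
    calc ∑ l ∈ F, (bipartiteBelow (fun x l => ∃ j, ln x j = l) X l).card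
        ≤ ∑ l ∈ F, (s + 1) := by
          apply sum_le_sum
          intro l _
          rw [← H.size l]
          exact card_le_card (filter_subset_filter _ (subset_univ _))
      _ = F.card * (s + 1) := by rw [sum_const, smul_eq_mul]
  -- the exceptional points
  set Y : Finset P := X.filter (fun x => N x = 1 ∧ m * (t + 1) < t + m * (C x).card) with hY
  have hYX : Y ⊆ X := filter_subset _ _
  have F4 : ∀ x ∈ X, x ∉ Y → N x * t ≤ m * (D x).card := by
    intro x hx hxY
    have hcd := hCD x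
    have hmul : m * (t + 1) = m * (C x).card + m * (D x).card := by
      rw [← hcd]; ring
    by_cases h1 : N x = 1
    · have h2 : ¬ (m * (t + 1) < t + m * (C x).card) := by
        intro h2
        exact hxY (mem_filter.2 ⟨hx, h1, h2⟩)
      rw [h1, one_mul]
      omega
    · have h2 : 2 ≤ N x := by
        have := hNpos x hx
        omega
      have hinj : Set.InjOn (fun u : P × R × Bool => u.2)
          (I.filter (fun u => u.1 = x) : Finset (P × R × Bool)) := by
        intro u hu v hv huv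
        rw [Finset.mem_coe, mem_filter] at hu hv
        exact Prod.ext (hu.2.trans hv.2.symm) huv
      have h3 : ((I.filter (fun u => u.1 = x)).image (fun u => u.2)).card = N x :=
        card_image_of_injOn hinj
      have h4 := hcode ((I.filter (fun u => u.1 = x)).image (fun u => u.2)) (C x)
        (by rw [h3]; exact h2) ?_ ?_
      · rw [h3] at h4
        omega
      · intro a ha b hb hab
        simp only [mem_image, mem_filter] at ha hb
        obtain ⟨u, ⟨hu, hux⟩, rfl⟩ := ha
        obtain ⟨v, ⟨hv, hvx⟩, rfl⟩ := hb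
        by_contra hne
        apply hI u hu v hv
        left
        refine ⟨hux.trans hvx.symm, hab, ?_⟩
        intro h5
        exact hne (Prod.ext hab h5)
      · intro a ha b hb j hj
        simp only [mem_image, mem_filter] at ha hb
        obtain ⟨u, ⟨hu, hux⟩, rfl⟩ := ha
        obtain ⟨v, ⟨hv, hvx⟩, rfl⟩ := hb
        have h5 := same u hu v hv (hux.trans hvx.symm) j (by rw [hux]; exact hj)
        unfold sg at h5
        rw [hux, hvx] at h5
        revert h5
        generalize (M u.2.1 j) = a1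
        generalize (M v.2.1 j) = a2
        generalize (r x j) = a3
        generalize (u.2.2) = a4
        generalize (v.2.2) = a5
        cases a1 <;> cases a2 <;> cases a3 <;> cases a4 <;> cases a5 <;> simp
  have F6 : t * I.card + m * ∑ x ∈ Y, (D x).card ≤ m * ∑ x ∈ X, (D x).card + t * Y.card := by
    have e1 : ∑ x ∈ X, (D x).card = ∑ x ∈ X \ Y, (D x).card + ∑ x ∈ Y, (D x).card :=
      (sum_sdiff hYX).symm
    have e2 : ∑ x ∈ X, N x = ∑ x ∈ X \ Y, N x + ∑ x ∈ Y, N x := (sum_sdiff hYX).symm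
    have e3 : (∑ x ∈ X \ Y, N x) * t ≤ m * ∑ x ∈ X \ Y, (D x).card := by
      rw [sum_mul, mul_sum]
      apply sum_le_sum
      intro x hx
      rw [mem_sdiff] at hx
      exact F4 x hx.1 hx.2
    have e4 : ∑ x ∈ Y, N x = Y.card := by
      rw [card_eq_sum_ones]
      apply sum_congr rfl
      intro x hx
      exact (mem_filter.1 hx).2.1
    rw [hIsum, e1, e2, e4]
    nlinarith [e3]
  have hsumCD : ∑ x ∈ Y, (C x).card + ∑ x ∈ Y, (D x).card = Y.card * (t + 1) := by
    rw [← sum_add_distrib, sum_congr rfl (fun x _ => hCD x), sum_const, smul_eq_mul]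
  by_cases hcase : F.card ≤ t
  · -- few lines
    have h1 : ∑ x ∈ X, (C x).card + ∑ x ∈ X, (D x).card = X.card * (t + 1) := by
      rw [← sum_add_distrib, sum_congr rfl (fun x _ => hCD x), sum_const, smul_eq_mul]
    have h2 : I.card ≤ m * X.card := by
      rw [hIsum]
      calc ∑ x ∈ X, N x ≤ ∑ _x ∈ X, m := sum_le_sum (fun x _ => hNm x)
        _ = m * X.card := by rw [sum_const, smul_eq_mul, mul_comm]
    have h3 : X.card * (t + 1) ≤ (t + 1) * (s * t + 1) + F.card * s := by
      nlinarith [F3, F3', h1]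
    have h4 : F.card * s ≤ t * s := Nat.mul_le_mul_right _ hcase
    have h5 : X.card ≤ (t + 1) * s := by
      by_contra hlt
      push Not at hlt
      have h6 : ((t + 1) * s + 1) * (t + 1) ≤ X.card * (t + 1) := Nat.mul_le_mul_right _ hlt
      nlinarith [h6, h3, h4, hs]
    calc I.card ≤ m * X.card := h2
      _ ≤ m * ((t + 1) * s) := Nat.mul_le_mul_left _ h5
      _ ≤ m * ((t + 1) * s) + 1 := Nat.le_succ _
  · push Not at hcase
    -- it is enough to bound t * |I|
    have key : t * I.card ≤ t * (m * ((t + 1) * s) + 1) → I.card ≤ m * ((t + 1) * s) + 1 :=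
      fun h => Nat.le_of_mul_le_mul_left h (by omega)
    apply key
    have F3m : m * ∑ x ∈ X, (D x).card + m * F.card ≤ m * ((t + 1) * (s * t + 1)) := by
      rw [← mul_add]
      exact Nat.mul_le_mul_left _ F3
    rcases Nat.lt_or_ge Y.card 2 with hY2 | hY2
    · rcases Nat.eq_zero_or_pos Y.card with hY0 | hY1
      · have hY0' : Y = ∅ := card_eq_zero.1 hY0
        rw [hY0', sum_empty, card_empty] at F6
        have h7 : m * (t + 1) ≤ m * F.card := Nat.mul_le_mul_left _ hcase
        nlinarith [F6, F3m, h7]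
      · have hY1' : Y.card = 1 := by omega
        obtain ⟨x, hx⟩ := card_eq_one.1 hY1'
        rw [hY1'] at F6
        rw [hx, sum_singleton] at F6
        have h8 : (C x).card ≤ F.card := by
          rw [← card_image_of_injective (C x) (fun j j' h => H.inj x j j' h)]
          apply card_le_card
          intro l hl
          rw [mem_image] at hl
          obtain ⟨j, hj, rfl⟩ := hl
          simp only [hC, mem_filter, mem_univ, true_and] at hj
          exact hj
        have h9 := hCD x
        have h10 : m * (C x).card ≤ m * F.card := Nat.mul_le_mul_left _ h8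
        have h11 : m * (C x).card + m * (D x).card = m * (t + 1) := by rw [← h9]; ring
        nlinarith [F6, F3m, h10, h11]
    · -- two or more exceptional points
      have hne : I.Nonempty := by
        have : Y.Nonempty := card_pos.1 (by omega)
        obtain ⟨x, hx⟩ := this
        have hx' := hYX hx
        rw [hX, mem_image] at hx'
        obtain ⟨u, hu, -⟩ := hx'
        exact ⟨u, hu⟩
      obtain ⟨u0, hu0⟩ := hne
      have hex : ∀ x : P, ∃ e : R × Bool, x ∈ X → (x, e) ∈ I := by
        intro x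
        by_cases hx : x ∈ X
        · have hx' := hx
          rw [hX, mem_image] at hx'
          obtain ⟨u, hu, rfl⟩ := hx'
          exact ⟨u.2, fun _ => hu⟩
        · exact ⟨u0.2, fun h => absurd h hx⟩
      choose e he using hex
      have h12 := hbad Y C e hY2 (fun x hx => (mem_filter.1 hx).2.2) (by
        intro x hx y hy j hj j' hj' hl
        by_cases hxy : x = y
        · subst hxy
          have := H.inj _ _ _ hl
          subst this
          rfl
        · exact cons (x, e x) (he x (hYX hx)) (y, e y) (he y (hYX hy)) hxy j j' hl)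
      have h13 : (Ln ln Y C).card ≤ F.card := by
        apply card_le_card
        intro l hl
        rw [Ln, mem_biUnion] at hl
        obtain ⟨x, -, hl⟩ := hl
        rw [mem_image] at hl
        obtain ⟨j, hj, rfl⟩ := hl
        simp only [hC, mem_filter, mem_univ, true_and] at hj
        exact hj
      have h14 : m * (Ln ln Y C).card ≤ m * F.card := Nat.mul_le_mul_left _ h13
      have h15 : m * ∑ x ∈ Y, (C x).card + m * ∑ x ∈ Y, (D x).card = m * (Y.card * (t + 1)) := by
        rw [← mul_add, hsumCD]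
      nlinarith [F6, F3m, h12, h14, h15]

end Ind

section Count

/-- The number of sign functions that are consistent on `S`. -/
theorem count_consistent {A L : Type} [Fintype A] [DecidableEq A] (g : A → L) (base : A → Bool) (S : Finset A) :
    (univ.filter (fun q : A → Bool => ∀ a ∈ S, ∀ b ∈ S, g a = g b →
      xor (base a) (q a) = xor (base b) (q b))).card * 2 ^ S.card ≤
    2 ^ (S.image g).card * 2 ^ Fintype.card A := by
  choose rep hrep using (fun l : ↥(S.image g) => mem_image.1 l.2)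
  have h1 : (univ.filter (fun q : A → Bool => ∀ a ∈ S, ∀ b ∈ S, g a = g b →
      xor (base a) (q a) = xor (base b) (q b))).card ≤
      (univ : Finset ((↥(S.image g) → Bool) × (↥(Sᶜ) → Bool))).card := by
    apply card_le_card_of_injOn (fun q => (fun l => xor (base (rep l)) (q (rep l)),
      fun a => q a))
    · intro q _
      simp
    · intro q hq q' hq' hqq
      rw [Finset.mem_coe, mem_filter] at hq hq'
      simp only [Prod.mk.injEq] at hqq
      obtain ⟨e1, e2⟩ := hqq
      funext a
      by_cases ha : a ∈ S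
      · have hl : g a ∈ S.image g := mem_image_of_mem g ha
        have e3 := congrFun e1 ⟨g a, hl⟩
        have e4 := hrep ⟨g a, hl⟩
        have e5 := hq.2 a ha _ e4.1 e4.2.symm
        have e6 := hq'.2 a ha _ e4.1 e4.2.symm
        rw [← e5, ← e6] at e3
        revert e3
        generalize base a = b1
        generalize q a = b2
        generalize q' a = b3
        cases b1 <;> cases b2 <;> cases b3 <;> simp
      · exact congrFun e2 ⟨a, mem_compl.2 ha⟩
  have h2 : (univ : Finset ((↥(S.image g) → Bool) × (↥(Sᶜ) → Bool))).card =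
      2 ^ (S.image g).card * 2 ^ (Sᶜ).card := by
    rw [card_univ, Fintype.card_prod, Fintype.card_fun, Fintype.card_fun, Fintype.card_bool,
      Fintype.card_coe, Fintype.card_coe]
  have h3 : (Sᶜ).card + S.card = Fintype.card A := by
    rw [card_compl]
    exact Nat.sub_add_cancel (card_le_univ S)
  calc _ ≤ (2 ^ (S.image g).card * 2 ^ (Sᶜ).card) * 2 ^ S.card :=
        Nat.mul_le_mul_right _ (h1.trans_eq h2)
    _ = 2 ^ (S.image g).card * 2 ^ Fintype.card A := by
        rw [mul_assoc, ← pow_add, h3]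

variable {P L J R : Type} [Fintype P] [Fintype J] [Fintype R]

/-- The lines of a configuration. -/
def LT (ln : P → J → L) (T : Finset (P × Finset J × R × Bool)) : Finset L :=
  T.biUnion (fun z => z.2.1.image (ln z.1))

/-- The bad event of a configuration. -/
def Ev (ln : P → J → L) (M : R → J → Bool) (t m : ℕ) (T : Finset (P × Finset J × R × Bool))
    (q : P × J → Bool) : Prop :=
  2 ≤ T.card ∧ (∀ z ∈ T, ∀ z' ∈ T, z.1 = z'.1 → z = z') ∧
  (∀ z ∈ T, ∀ z' ∈ T, ∀ j ∈ z.2.1, ∀ j' ∈ z'.2.1, ln z.1 j = ln z'.1 j' →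
    xor (xor z.2.2.2 (M z.2.2.1 j)) (q (z.1, j)) =
      xor (xor z'.2.2.2 (M z'.2.2.1 j')) (q (z'.1, j'))) ∧
  m * (LT ln T).card + m * (T.card * (t + 1)) + t <
    t * T.card + m * (t + 1) + m * ∑ z ∈ T, z.2.1.card

theorem notBad_of_ev (ln : P → J → L) (M : R → J → Bool) (t m : ℕ) (q : P × J → Bool)
    (h : ∀ T ∈ ((univ : Finset P) ×ˢ ((univ.filter (fun C : Finset J =>
      m * (t + 1) < t + m * C.card)) ×ˢ (univ : Finset (R × Bool)))).powerset,
      ¬ Ev ln M t m T q) : NotBad ln M (fun x j => q (x, j)) t m := by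
  intro Y C e hY2 hC hcons
  by_contra hlt
  push Not at hlt
  set f : P → P × Finset J × R × Bool := fun x => (x, C x, e x) with hf
  have hinj : Function.Injective f := by
    intro x y hxy
    exact congrArg Prod.fst hxy
  apply h (Y.image f)
  · rw [mem_powerset]
    intro z hz
    rw [mem_image] at hz
    obtain ⟨x, hx, rfl⟩ := hz
    rw [mem_product, mem_product, mem_filter]
    exact ⟨mem_univ _, ⟨mem_univ _, hC x hx⟩, mem_univ _⟩
  · have hcard : (Y.image f).card = Y.card := card_image_of_injective _ hinj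
    refine ⟨by rw [hcard]; exact hY2, ?_, ?_, ?_⟩
    · intro z hz z' hz' hzz
      rw [mem_image] at hz hz'
      obtain ⟨x, hx, rfl⟩ := hz
      obtain ⟨y, hy, rfl⟩ := hz'
      have : x = y := hzz
      rw [this]
    · intro z hz z' hz' j hj j' hj' hl
      rw [mem_image] at hz hz'
      obtain ⟨x, hx, rfl⟩ := hz
      obtain ⟨y, hy, rfl⟩ := hz'
      have := hcons x hx y hy j hj j' hj' hl
      simp only [sg] at this
      simp only [hf, Bool.xor_assoc]
      exact this
    · have h1 : LT ln (Y.image f) = Ln ln Y C := by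
        unfold LT Ln
        rw [image_biUnion]
      have h2 : ∑ z ∈ Y.image f, z.2.1.card = ∑ x ∈ Y, (C x).card := by
        rw [sum_image (fun x _ y _ h => hinj h)]
      rw [h1, h2, hcard]
      exact hlt

theorem card_ev (ln : P → J → L) (M : R → J → Bool) {t m k0 w c : ℕ}
    (htk : t = m * k0) (hw : w + k0 = t + 1) (hc : 2 * (c + 1) ≤ w)
    (T : Finset (P × Finset J × R × Bool)) :
    (univ.filter (fun q : P × J → Bool => Ev ln M t m T q)).card * (2 * (2 ^ (c + 1)) ^ T.card) ≤
      2 ^ Fintype.card (P × J) := by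
  by_cases hex : ∃ q : P × J → Bool, Ev ln M t m T q
  swap
  · have : univ.filter (fun q : P × J → Bool => Ev ln M t m T q) = ∅ := by
      rw [filter_eq_empty_iff]
      intro q _ hq
      exact hex ⟨q, hq⟩
    rw [this, card_empty, zero_mul]
    exact Nat.zero_le _
  obtain ⟨q0, hT2, hTinj, -, hviol⟩ := hex
  set S : Finset (P × J) := T.biUnion (fun z => z.2.1.image (fun j => (z.1, j))) with hS
  have hScard : S.card = ∑ z ∈ T, z.2.1.card := by
    rw [hS, card_biUnion]
    · apply sum_congr rfl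
      intro z _
      apply card_image_of_injective
      intro j j' hj
      exact (Prod.mk.injEq _ _ _ _ ▸ hj : _ ∧ _).2
    · intro z hz z' hz' hne
      rw [Function.onFun, disjoint_left]
      intro a ha ha'
      rw [mem_image] at ha ha'
      obtain ⟨j, -, rfl⟩ := ha
      obtain ⟨j', -, h2⟩ := ha'
      apply hne
      exact hTinj z hz z' hz' (congrArg Prod.fst h2).symm
  have hSimg : S.image (fun a => ln a.1 a.2) = LT ln T := by
    rw [hS, biUnion_image]
    unfold LT
    apply biUnion_congr rfl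
    intro z _
    rw [image_image]
    rfl
  set base : P × J → Bool := fun a => if h : ∃ z ∈ T, z.1 = a.1 then
    xor h.choose.2.2.2 (M h.choose.2.2.1 a.2) else false with hbase
  have hbase' : ∀ z ∈ T, ∀ j, base (z.1, j) = xor z.2.2.2 (M z.2.2.1 j) := by
    intro z hz j
    have hh : ∃ z' ∈ T, z'.1 = (z.1, j).1 := ⟨z, hz, rfl⟩
    simp only [hbase]
    rw [dif_pos hh]
    have h2 := hh.choose_spec
    have h3 := hTinj _ h2.1 z hz h2.2
    rw [h3]
  obtain ⟨n2, hn2⟩ : ∃ n2, n2 = (univ.filter (fun q : P × J → Bool => ∀ a ∈ S, ∀ b ∈ S,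
      ln a.1 a.2 = ln b.1 b.2 → xor (base a) (q a) = xor (base b) (q b))).card := ⟨_, rfl⟩
  have hcount : n2 * 2 ^ S.card ≤ 2 ^ (LT ln T).card * 2 ^ Fintype.card (P × J) := by
    rw [hn2, ← hSimg]
    exact count_consistent (fun a : P × J => ln a.1 a.2) base S
  obtain ⟨n1, hn1⟩ : ∃ n1, n1 = (univ.filter (fun q : P × J → Bool => Ev ln M t m T q)).card :=
    ⟨_, rfl⟩
  rw [← hn1]
  have hsub : n1 ≤ n2 := by
    rw [hn1, hn2]
    apply card_le_card
    intro q hq
    rw [mem_filter] at hq ⊢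
    refine ⟨mem_univ _, ?_⟩
    intro a ha b hb hab
    rw [hS, mem_biUnion] at ha hb
    obtain ⟨z, hz, ha⟩ := ha
    obtain ⟨z', hz', hb⟩ := hb
    rw [mem_image] at ha hb
    obtain ⟨j, hj, rfl⟩ := ha
    obtain ⟨j', hj', rfl⟩ := hb
    rw [hbase' z hz, hbase' z' hz']
    exact hq.2.2.2.1 z hz z' hz' j hj j' hj' hab
  -- the violation
  have hv1 : (LT ln T).card + (T.card - 1) * w + 1 ≤ S.card := by
    rw [hScard]
    obtain ⟨y, hy⟩ : ∃ y, T.card = y + 1 := ⟨T.card - 1, by omega⟩
    rw [hy] at hviol ⊢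
    rw [Nat.add_sub_cancel]
    have h4 : m * ((LT ln T).card + (y + 1) * (t + 1) + k0) <
        m * (k0 * (y + 1) + (t + 1) + ∑ z ∈ T, z.2.1.card) := by
      calc m * ((LT ln T).card + (y + 1) * (t + 1) + k0)
          = m * (LT ln T).card + m * ((y + 1) * (t + 1)) + t := by rw [htk]; ring
        _ < t * (y + 1) + m * (t + 1) + m * ∑ z ∈ T, z.2.1.card := hviol
        _ = m * (k0 * (y + 1) + (t + 1) + ∑ z ∈ T, z.2.1.card) := by rw [htk]; ring
    have h5 := Nat.lt_of_mul_lt_mul_left h4
    rw [← hw] at h5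
    nlinarith [h5]
  have hpow : (2 ^ (c + 1)) ^ T.card ≤ 2 ^ ((T.card - 1) * w) := by
    rw [← pow_mul]
    apply Nat.pow_le_pow_right (by norm_num)
    obtain ⟨y, hy⟩ : ∃ y, T.card = y + 2 := ⟨T.card - 2, by omega⟩
    rw [hy]
    have : y + 2 - 1 = y + 1 := by omega
    rw [this]
    nlinarith [Nat.mul_le_mul_left (y + 1) hc]
  have h6 : n1 * (2 ^ ((T.card - 1) * w + 1)) * 2 ^ (LT ln T).card ≤
      2 ^ Fintype.card (P × J) * 2 ^ (LT ln T).card := by
    calc n1 * (2 ^ ((T.card - 1) * w + 1)) * 2 ^ (LT ln T).card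
        = n1 * 2 ^ ((LT ln T).card + (T.card - 1) * w + 1) := by
          rw [mul_assoc, ← pow_add]; congr 2; ring
      _ ≤ n1 * 2 ^ S.card := by
          apply Nat.mul_le_mul_left
          exact Nat.pow_le_pow_right (by norm_num) hv1
      _ ≤ n2 * 2 ^ S.card := Nat.mul_le_mul_right _ hsub
      _ ≤ 2 ^ (LT ln T).card * 2 ^ Fintype.card (P × J) := hcount
      _ = 2 ^ Fintype.card (P × J) * 2 ^ (LT ln T).card := mul_comm _ _
  have h7 : n1 * (2 ^ ((T.card - 1) * w + 1)) ≤ 2 ^ Fintype.card (P × J) :=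
    Nat.le_of_mul_le_mul_right h6 (Nat.two_pow_pos _)
  calc n1 * (2 * (2 ^ (c + 1)) ^ T.card) ≤ n1 * (2 * 2 ^ ((T.card - 1) * w)) :=
        Nat.mul_le_mul_left _ (Nat.mul_le_mul_left _ hpow)
    _ = n1 * (2 ^ ((T.card - 1) * w + 1)) := by rw [pow_succ 2 ((T.card - 1) * w)]; ring
    _ ≤ 2 ^ Fintype.card (P × J) := h7

theorem exists_signs (ln : P → J → L) (M : R → J → Bool) {t m k0 w c : ℕ}
    (htk : t = m * k0) (hw : w + k0 = t + 1) (hc : 2 * (c + 1) ≤ w)
    (hK : Fintype.card P * ((univ.filter (fun C : Finset J =>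
      m * (t + 1) < t + m * C.card)).card * Fintype.card (R × Bool)) ≤ 2 ^ c) :
    ∃ r : P → J → Bool, NotBad ln M r t m := by
  set Z := (univ : Finset P) ×ˢ ((univ.filter (fun C : Finset J =>
      m * (t + 1) < t + m * C.card)) ×ˢ (univ : Finset (R × Bool))) with hZ
  have hZc : Z.card ≤ 2 ^ c := by
    rw [hZ, card_product, card_product, card_univ, card_univ]
    exact hK
  have hbound : ((univ.filter (fun q : P × J → Bool => ∃ T ∈ Z.powerset, Ev ln M t m T q)).card :
      ℝ) < 2 ^ Fintype.card (P × J) := by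
    have h1 : univ.filter (fun q : P × J → Bool => ∃ T ∈ Z.powerset, Ev ln M t m T q) =
        Z.powerset.biUnion (fun T => univ.filter (fun q : P × J → Bool => Ev ln M t m T q)) := by
      ext q
      simp only [mem_filter, mem_univ, true_and, mem_biUnion]
    have h2 : ((univ.filter (fun q : P × J → Bool => ∃ T ∈ Z.powerset, Ev ln M t m T q)).card :
        ℝ) ≤ ∑ T ∈ Z.powerset, ((univ.filter (fun q : P × J → Bool => Ev ln M t m T q)).card : ℝ)
        := by
      rw [h1]
      exact_mod_cast card_biUnion_le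
    have h3 : ∀ T ∈ Z.powerset,
        ((univ.filter (fun q : P × J → Bool => Ev ln M t m T q)).card : ℝ) ≤
        (2 ^ Fintype.card (P × J) / 2) * ((1 / 2 ^ (c + 1)) ^ T.card * 1 ^ (Z.card - T.card)) := by
      intro T _
      have h4 := card_ev ln M (T := T) htk hw hc
      have h5 : ((univ.filter (fun q : P × J → Bool => Ev ln M t m T q)).card : ℝ) *
          (2 * (2 ^ (c + 1)) ^ T.card) ≤ 2 ^ Fintype.card (P × J) := by exact_mod_cast h4
      rw [one_pow, mul_one, one_div, inv_pow, ← div_eq_mul_inv, div_div]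
      rw [le_div_iff₀ (by positivity)]
      exact h5
    have h6 : ∑ T ∈ Z.powerset, ((univ.filter (fun q : P × J → Bool => Ev ln M t m T q)).card : ℝ)
        ≤ (2 ^ Fintype.card (P × J) / 2) * (1 / 2 ^ (c + 1) + 1) ^ Z.card := by
      refine (sum_le_sum h3).trans ?_
      rw [← mul_sum, sum_pow_mul_eq_add_pow]
    have h7 : (1 / 2 ^ (c + 1) + 1 : ℝ) ^ Z.card < 2 := by
      have h8 : (1 / 2 ^ (c + 1) + 1 : ℝ) ≤ Real.exp (1 / 2 ^ (c + 1)) := Real.add_one_le_exp _
      have h9 : (1 / 2 ^ (c + 1) + 1 : ℝ) ^ Z.card ≤ (1 / 2 ^ (c + 1) + 1 : ℝ) ^ (2 ^ c) := by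
        apply pow_le_pow_right₀ _ hZc
        have : (0 : ℝ) < 1 / 2 ^ (c + 1) := by positivity
        linarith
      have h10 : (1 / 2 ^ (c + 1) + 1 : ℝ) ^ (2 ^ c) ≤ Real.exp (1 / 2 ^ (c + 1)) ^ (2 ^ c) :=
        pow_le_pow_left₀ (by positivity) h8 _
      have h11 : Real.exp (1 / 2 ^ (c + 1)) ^ (2 ^ c) = Real.exp (1 / 2) := by
        rw [← Real.exp_nat_mul]
        congr 1
        push_cast
        rw [pow_succ]
        field_simp
      have h12 : Real.exp (1 / 2) < 2 := by
        have h13 : Real.exp (1 / 2) * Real.exp (1 / 2) = Real.exp 1 := by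
          rw [← Real.exp_add]; norm_num
        have h14 := Real.exp_one_lt_d9
        have h15 : 0 < Real.exp (1 / 2) := Real.exp_pos _
        nlinarith [h13, h14, h15]
      calc _ ≤ _ := h9
        _ ≤ _ := h10
        _ = _ := h11
        _ < 2 := h12
    have hpos : (0 : ℝ) < 2 ^ Fintype.card (P × J) := by positivity
    calc _ ≤ _ := h2
      _ ≤ _ := h6
      _ < (2 ^ Fintype.card (P × J) / 2) * 2 := by
          apply mul_lt_mul_of_pos_left h7
          positivity
      _ = 2 ^ Fintype.card (P × J) := by ring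
  have hex : ∃ q : P × J → Bool, ¬ ∃ T ∈ Z.powerset, Ev ln M t m T q := by
    by_contra hall
    push Not at hall
    have h1 : univ.filter (fun q : P × J → Bool => ∃ T ∈ Z.powerset, Ev ln M t m T q) = univ := by
      rw [filter_eq_self]
      intro q _
      exact hall q
    rw [h1, card_univ, Fintype.card_fun, Fintype.card_bool] at hbound
    push_cast at hbound
    exact lt_irrefl _ hbound
  obtain ⟨q, hq⟩ := hex
  refine ⟨fun x j => q (x, j), ?_⟩
  apply notBad_of_ev
  intro T hT hev
  exact hq ⟨T, hT, hev⟩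

end Count

section CardK

/-- The number of large sets of line numbers. -/
theorem card_K {J : Type} [Fintype J] {t m k0 w b : ℕ} (hJ : Fintype.card J = t + 1)
    (hm : m = 2 ^ b) (htk : t = m * k0) (hw : w + k0 = t + 1) :
    (univ.filter (fun C : Finset J => m * (t + 1) < t + m * C.card)).card ≤
      2 ^ ((b + 2) * k0 + 2) := by
  have hmpos : 0 < m := by rw [hm]; positivity
  have h1 : (univ.filter (fun C : Finset J => m * (t + 1) < t + m * C.card)).card * m ^ w ≤
      (m + 1) ^ (t + 1) := by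
    rw [← hJ, ← Fintype.sum_pow_mul_eq_add_pow J m 1, hJ]
    calc (univ.filter (fun C : Finset J => m * (t + 1) < t + m * C.card)).card * m ^ w
        = ∑ C ∈ univ.filter (fun C : Finset J => m * (t + 1) < t + m * C.card), m ^ w := by
          rw [sum_const, smul_eq_mul]
      _ ≤ ∑ C ∈ univ.filter (fun C : Finset J => m * (t + 1) < t + m * C.card),
            m ^ C.card * 1 ^ (t + 1 - C.card) := by
          apply sum_le_sum
          intro C hC
          rw [mem_filter] at hC
          rw [one_pow, mul_one]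
          apply Nat.pow_le_pow_right hmpos
          have h2 : m * (t + 1) < m * (k0 + C.card) := by
            calc m * (t + 1) < t + m * C.card := hC.2
              _ = m * (k0 + C.card) := by rw [mul_add, ← htk]
          have h3 := Nat.lt_of_mul_lt_mul_left h2
          omega
      _ ≤ ∑ C : Finset J, m ^ C.card * 1 ^ (t + 1 - C.card) := by
          apply sum_le_sum_of_subset
          exact subset_univ _
  have hmr : (0 : ℝ) < m := by exact_mod_cast hmpos
  have h4 : ((m : ℝ) + 1) ^ (t + 1) ≤ (m : ℝ) ^ (t + 1) * 4 ^ (k0 + 1) := by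
    have h5 : ((m : ℝ) + 1) = m * (1 / m + 1) := by field_simp; ring
    rw [h5, mul_pow]
    apply mul_le_mul_of_nonneg_left _ (by positivity)
    have h6 : (1 / (m : ℝ) + 1) ≤ Real.exp (1 / m) := Real.add_one_le_exp _
    have h7 : (1 / (m : ℝ) + 1) ^ (t + 1) ≤ Real.exp (1 / m) ^ (t + 1) :=
      pow_le_pow_left₀ (by positivity) h6 _
    have h8 : Real.exp (1 / m) ^ (t + 1) ≤ Real.exp (k0 + 1) := by
      rw [← Real.exp_nat_mul]
      apply Real.exp_le_exp.2
      have h9 : ((t + 1 : ℕ) : ℝ) = m * k0 + 1 := by rw [htk]; push_cast; ring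
      rw [h9]
      have h10 : ((m : ℝ) * k0 + 1) * (1 / m) = k0 + 1 / m := by field_simp
      rw [h10]
      have h11 : 1 / (m : ℝ) ≤ 1 := by
        rw [div_le_one hmr]
        exact_mod_cast hmpos
      linarith
    have h12 : Real.exp (k0 + 1) ≤ 4 ^ (k0 + 1) := by
      have h13 : (k0 : ℝ) + 1 = ((k0 + 1 : ℕ) : ℝ) * 1 := by push_cast; ring
      rw [h13, Real.exp_nat_mul]
      apply pow_le_pow_left₀ (Real.exp_pos _).le
      have := Real.exp_one_lt_d9
      linarith
    exact h7.trans (h8.trans h12)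
  have h14 : ((univ.filter (fun C : Finset J => m * (t + 1) < t + m * C.card)).card : ℝ) *
      (m : ℝ) ^ w ≤ (m : ℝ) ^ (t + 1) * 4 ^ (k0 + 1) := by
    refine le_trans ?_ h4
    exact_mod_cast h1
  have h15 : (m : ℝ) ^ (t + 1) * 4 ^ (k0 + 1) = ((2 : ℝ) ^ ((b + 2) * k0 + 2)) * (m : ℝ) ^ w := by
    rw [← hw, pow_add, hm]
    push_cast
    have h16 : (4 : ℝ) = 2 ^ 2 := by norm_num
    rw [h16, ← pow_mul, ← pow_mul, ← pow_mul]
    rw [← pow_add, ← pow_add, ← pow_add]
    congr 1
    ring
  rw [h15] at h14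
  have h17 := le_of_mul_le_mul_right h14 (by positivity)
  exact_mod_cast h17

end CardK

section CodeSec

/-- The base code: a constant row, a row `z0 + z1`, and the coordinate rows, on the columns
`some z`; and one extra column `none`. -/
def M0 {e : ℕ} (z0 z1 : Fin e) : Option (Option (Fin e)) → Option (Fin e → Bool) → Bool
  | none, _ => false
  | some none, none => true
  | some none, some z => xor (z z0) (z z1)
  | some (some _), none => false
  | some (some i), some z => z i

variable {e : ℕ} {z0 z1 : Fin e}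

/-- Flip a coordinate. -/
def fl (i : Fin e) (z : Fin e → Bool) : Fin e → Bool := Function.update z i (!z i)

theorem fl_inj (i : Fin e) : Function.Injective (fl i) := by
  intro z z' h
  funext k
  have hk := congrFun h k
  unfold fl at hk
  by_cases hki : k = i
  · subst hki
    simp only [Function.update_self] at hk
    exact Bool.not_inj hk
  · simpa only [Function.update_of_ne hki] using hk

theorem dif_rows (h01 : z0 ≠ z1) (a b : Option (Option (Fin e))) (hab : a ≠ b) :
    ∃ i, ∀ z, xor (M0 z0 z1 a (some z)) (M0 z0 z1 b (some z)) ≠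
      xor (M0 z0 z1 a (some (fl i z))) (M0 z0 z1 b (some (fl i z))) := by
  have bool_aux : ∀ x y : Bool, x ≠ xor (!x) (xor y y) := by decide
  rcases a with _ | (_ | k) <;> rcases b with _ | (_ | l)
  · exact absurd rfl hab
  · refine ⟨z0, fun z => ?_⟩
    simp only [M0, fl, Function.update_self, Function.update_of_ne h01.symm]
    cases z z0 <;> cases z z1 <;> decide
  · refine ⟨l, fun z => ?_⟩
    simp only [M0, fl, Function.update_self]
    cases z l <;> decide
  · refine ⟨z0, fun z => ?_⟩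
    simp only [M0, fl, Function.update_self, Function.update_of_ne h01.symm]
    cases z z0 <;> cases z z1 <;> decide
  · exact absurd rfl hab
  · by_cases hl : l = z0
    · subst hl
      refine ⟨z1, fun z => ?_⟩
      simp only [M0, fl, Function.update_self, Function.update_of_ne h01]
      cases z l <;> cases z z1 <;> decide
    · refine ⟨z0, fun z => ?_⟩
      simp only [M0, fl, Function.update_self, Function.update_of_ne h01.symm,
        Function.update_of_ne hl]
      cases z l <;> cases z z0 <;> cases z z1 <;> decide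
  · refine ⟨k, fun z => ?_⟩
    simp only [M0, fl, Function.update_self]
    cases z k <;> decide
  · by_cases hl : k = z0
    · subst hl
      refine ⟨z1, fun z => ?_⟩
      simp only [M0, fl, Function.update_self, Function.update_of_ne h01]
      cases z k <;> cases z z1 <;> decide
    · refine ⟨z0, fun z => ?_⟩
      simp only [M0, fl, Function.update_self, Function.update_of_ne h01.symm,
        Function.update_of_ne hl]
      cases z k <;> cases z z0 <;> cases z z1 <;> decide
  · have hkl : l ≠ k := by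
      intro h
      apply hab
      rw [h]
    refine ⟨k, fun z => ?_⟩
    simp only [M0, fl, Function.update_self, Function.update_of_ne hkl]
    cases z k <;> cases z l <;> decide

theorem num_aux (a m : ℕ) (ha : 2 ≤ a) (hm : 6 ≤ m) (ham : a + 3 ≤ m) :
    (a + 2) * 2 ^ a + m ≤ m * 2 ^ a := by
  obtain ⟨d, rfl⟩ : ∃ d, m = a + 3 + d := ⟨m - (a + 3), by omega⟩
  rcases Nat.lt_or_ge a 3 with h3 | h3
  · have : a = 2 := by omega
    subst this
    omega
  · have h5 : a + 5 ≤ 2 ^ a := by
      clear ham hm ha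
      induction a, h3 using Nat.le_induction with
      | base => norm_num
      | succ n hn ih => rw [pow_succ]; omega
    nlinarith [Nat.mul_le_mul_left d h5]

theorem code_M0 (he : 4 ≤ e) (h01 : z0 ≠ z1) : Code (M0 z0 z1) (2 ^ e) (e + 2) := by
  intro T C hT2 hTinj hcons
  set C' : Finset (Fin e → Bool) := univ.filter (fun z => some z ∈ C) with hC'
  have hCC' : C.card ≤ C'.card + 1 := by
    have h1 : C ⊆ insert none (C'.image some) := by
      intro j hj
      rcases j with _ | z
      · exact mem_insert_self _ _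
      · apply mem_insert_of_mem
        apply mem_image_of_mem
        exact mem_filter.2 ⟨mem_univ _, hj⟩
    calc C.card ≤ (insert none (C'.image some)).card := card_le_card h1
      _ ≤ (C'.image some).card + 1 := card_insert_le _ _
      _ ≤ C'.card + 1 := by
          have := card_image_le (s := C') (f := (some : (Fin e → Bool) → Option (Fin e → Bool)))
          omega
  -- two rows
  have hhalf : 2 * C'.card ≤ 2 ^ e := by
    obtain ⟨a, ha, b, hb, hab⟩ := one_lt_card.1 (lt_of_lt_of_le one_lt_two hT2)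
    have hab' : a.1 ≠ b.1 := fun h => hab (hTinj a ha b hb h)
    obtain ⟨i, hi⟩ := dif_rows h01 a.1 b.1 hab'
    have hdisj : Disjoint C' (C'.image (fl i)) := by
      rw [disjoint_left]
      intro z hz hz'
      rw [mem_image] at hz'
      obtain ⟨y, hy, rfl⟩ := hz'
      rw [hC', mem_filter] at hz hy
      have e1 := hcons a ha b hb _ hz.2
      have e2 := hcons a ha b hb _ hy.2
      have e3 := hi y
      apply e3
      revert e1 e2
      generalize M0 z0 z1 a.1 (some y) = x1
      generalize M0 z0 z1 b.1 (some y) = x2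
      generalize M0 z0 z1 a.1 (some (fl i y)) = x3
      generalize M0 z0 z1 b.1 (some (fl i y)) = x4
      generalize a.2 = x5
      generalize b.2 = x6
      revert x1 x2 x3 x4 x5 x6
      decide
    have h2 : (C' ∪ C'.image (fl i)).card ≤ 2 ^ e := by
      refine (card_le_univ _).trans ?_
      rw [Fintype.card_fun, Fintype.card_bool, Fintype.card_fin]
    rw [card_union_of_disjoint hdisj, card_image_of_injective _ (fl_inj i)] at h2
    omega
  -- the determined coordinates
  set B : Finset (Fin e) := univ.filter (fun i => ∃ x, (some (some i), x) ∈ T) with hB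
  have hU : ∃ U : Finset (Fin e), T.card ≤ U.card + 2 ∧
      ∀ z ∈ C', ∀ z' ∈ C', (∀ i, i ∉ U → z i = z' i) → z = z' := by
    have hTcard : (T.image Prod.fst).card = T.card := by
      apply card_image_of_injOn
      intro a ha b hb hab
      exact hTinj a ha b hb hab
    by_cases hconst : ∃ x, ((none : Option (Option (Fin e))), x) ∈ T
    · obtain ⟨x, hx⟩ := hconst
      refine ⟨B, ?_, ?_⟩
      · rw [← hTcard]
        have h3 : T.image Prod.fst ⊆ insert none (insert (some none)
            (B.image (fun i => some (some i)))) := by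
          intro a ha
          rw [mem_image] at ha
          obtain ⟨c, hc, rfl⟩ := ha
          obtain ⟨c1, c2⟩ := c
          rcases c1 with _ | (_ | i)
          · simp
          · simp
          · apply mem_insert_of_mem
            apply mem_insert_of_mem
            rw [mem_image]
            exact ⟨i, mem_filter.2 ⟨mem_univ _, c2, hc⟩, rfl⟩
        refine (card_le_card h3).trans ?_
        refine (card_insert_le _ _).trans ?_
        have h4 := card_insert_le (some none) (B.image (fun i => some (some i)))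
        have h5 := card_image_le (s := B) (f := fun i => some (some i))
        omega
      · intro z hz z' hz' hzz
        funext i
        by_cases hi : i ∈ B
        · rw [hB, mem_filter] at hi
          obtain ⟨-, y, hy⟩ := hi
          rw [hC', mem_filter] at hz hz'
          have e1 := hcons _ hx _ hy _ hz.2
          have e2 := hcons _ hx _ hy _ hz'.2
          simp only [M0] at e1 e2
          rw [e1] at e2
          revert e2
          generalize z i = x1
          generalize z' i = x2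
          clear e1 hy
          revert x1 x2 y
          decide
        · exact hzz i hi
    · have hBne : T.card ≤ B.card + 1 := by
        rw [← hTcard]
        have h3 : T.image Prod.fst ⊆ insert (some none) (B.image (fun i => some (some i))) := by
          intro a ha
          rw [mem_image] at ha
          obtain ⟨c, hc, rfl⟩ := ha
          obtain ⟨c1, c2⟩ := c
          rcases c1 with _ | (_ | i)
          · exact absurd ⟨c2, hc⟩ hconst
          · simp
          · apply mem_insert_of_mem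
            rw [mem_image]
            exact ⟨i, mem_filter.2 ⟨mem_univ _, c2, hc⟩, rfl⟩
        refine (card_le_card h3).trans ?_
        refine (card_insert_le _ _).trans ?_
        have h5 := card_image_le (s := B) (f := fun i => some (some i))
        omega
      have hBpos : B.Nonempty := card_pos.1 (by omega)
      obtain ⟨i0, hi0⟩ := hBpos
      refine ⟨B.erase i0, ?_, ?_⟩
      · rw [card_erase_of_mem hi0]
        omega
      · intro z hz z' hz' hzz
        have h00 : z i0 = z' i0 := hzz i0 (by simp)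
        have hi0' := hi0
        rw [hB, mem_filter] at hi0'
        obtain ⟨-, x, hx⟩ := hi0'
        funext i
        by_cases hi : i ∈ B
        · rw [hB, mem_filter] at hi
          obtain ⟨-, y, hy⟩ := hi
          rw [hC', mem_filter] at hz hz'
          have e1 := hcons _ hx _ hy _ hz.2
          have e2 := hcons _ hx _ hy _ hz'.2
          simp only [M0] at e1 e2
          rw [← h00, e1] at e2
          revert e2
          generalize z i = x1
          generalize z' i = x2
          clear e1 hy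
          revert x1 x2 y
          decide
        · exact hzz i (fun h => hi (mem_of_mem_erase h))
  obtain ⟨U, hU1, hU2⟩ := hU
  have hCU : C'.card * 2 ^ U.card ≤ 2 ^ e := by
    have h3 : C'.card ≤ (univ : Finset (↥(Uᶜ) → Bool)).card := by
      apply card_le_card_of_injOn (fun z => fun i : ↥(Uᶜ) => z i)
      · intro z _
        simp
      · intro z hz z' hz' hzz
        apply hU2 z hz z' hz'
        intro i hi
        exact congrFun hzz ⟨i, mem_compl.2 hi⟩
    rw [card_univ, Fintype.card_fun, Fintype.card_bool, Fintype.card_coe] at h3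
    calc C'.card * 2 ^ U.card ≤ 2 ^ (Uᶜ).card * 2 ^ U.card := Nat.mul_le_mul_right _ h3
      _ = 2 ^ e := by
          rw [← pow_add, card_compl, Fintype.card_fin, Nat.sub_add_cancel]
          have := card_le_univ U
          rwa [Fintype.card_fin] at this
  obtain ⟨a, ha⟩ : ∃ a, T.card = a + 2 := ⟨T.card - 2, by omega⟩
  have hCa : C'.card * 2 ^ a ≤ 2 ^ e := by
    refine le_trans ?_ hCU
    apply Nat.mul_le_mul_left
    apply Nat.pow_le_pow_right (by norm_num)
    omega
  have hTle : T.card ≤ e + 2 := by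
    have hTcard : (T.image Prod.fst).card = T.card := by
      apply card_image_of_injOn
      intro a ha b hb hab
      exact hTinj a ha b hb hab
    rw [← hTcard]
    refine (card_le_univ _).trans ?_
    simp
  rw [ha]
  by_cases hfull : a = e
  · -- all rows
    subst hfull
    have hC1 : C'.card ≤ 1 := by
      have h3 : C'.card * 2 ^ a ≤ 1 * 2 ^ a := by rw [one_mul]; exact hCa
      exact Nat.le_of_mul_le_mul_right h3 (Nat.two_pow_pos _)
    have hC2 : C.card ≤ 1 := by
      by_cases hnone : none ∈ C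
      · have h0 : C' = ∅ := by
          rw [eq_empty_iff_forall_notMem]
          intro z hz
          rw [hC', mem_filter] at hz
          have hTcard : (T.image Prod.fst).card = T.card := by
            apply card_image_of_injOn
            intro a ha b hb hab
            exact hTinj a ha b hb hab
          have huniv : T.image Prod.fst = univ := by
            apply eq_univ_of_card
            rw [hTcard, ha]
            simp
          have hrow : ∀ x : Option (Option (Fin a)), ∃ y, (x, y) ∈ T := by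
            intro x
            have : x ∈ T.image Prod.fst := by rw [huniv]; exact mem_univ _
            rw [mem_image] at this
            obtain ⟨⟨c1, c2⟩, hc, rfl⟩ := this
            exact ⟨c2, hc⟩
          obtain ⟨y0, hy0⟩ := hrow none
          obtain ⟨y1, hy1⟩ := hrow (some none)
          obtain ⟨y2, hy2⟩ := hrow (some (some z0))
          obtain ⟨y3, hy3⟩ := hrow (some (some z1))
          have a1 := hcons _ hy0 _ hy1 _ hnone
          have a2 := hcons _ hy0 _ hy2 _ hnone
          have a3 := hcons _ hy0 _ hy3 _ hnone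
          have b1 := hcons _ hy0 _ hy1 _ hz.2
          have b2 := hcons _ hy0 _ hy2 _ hz.2
          have b3 := hcons _ hy0 _ hy3 _ hz.2
          simp only [M0] at a1 a2 a3 b1 b2 b3
          clear hy0 hy1 hy2 hy3
          revert a1 a2 a3 b1 b2 b3
          generalize z z0 = x1
          generalize z z1 = x2
          revert x1 x2 y0 y1 y2 y3
          decide
        rw [h0, card_empty] at hCC'
        omega
      · have h1 : C ⊆ C'.image some := by
          intro j hj
          rcases j with _ | z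
          · exact absurd hj hnone
          · apply mem_image_of_mem
            exact mem_filter.2 ⟨mem_univ _, hj⟩
        have := card_le_card h1
        have h2 := card_image_le (s := C') (f := (some : (Fin a → Bool) → Option (Fin a → Bool)))
        omega
    nlinarith [Nat.mul_le_mul_left (a + 2) hC2]
  · have hlt : a + 3 ≤ e + 2 := by omega
    have hgoal : (a + 2) * 2 ^ e + (e + 2) * C'.card ≤ (e + 2) * 2 ^ e := by
      rcases Nat.lt_or_ge a 2 with h2 | h2
      · have h3 : (a + 2) * 2 ^ e ≤ 3 * 2 ^ e := Nat.mul_le_mul_right _ (by omega)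
        have h4 : (e + 2) * (2 * C'.card) ≤ (e + 2) * 2 ^ e := Nat.mul_le_mul_left _ hhalf
        have h5 : 6 * 2 ^ e ≤ (e + 2) * 2 ^ e := Nat.mul_le_mul_right _ (by omega)
        nlinarith [h3, h4, h5]
      · have h6 := num_aux a (e + 2) h2 (by omega) hlt
        have h7 : 2 ^ a * ((a + 2) * 2 ^ e + (e + 2) * C'.card) ≤
            2 ^ a * ((e + 2) * 2 ^ e) := by
          have h8 : (e + 2) * (C'.card * 2 ^ a) ≤ (e + 2) * 2 ^ e := Nat.mul_le_mul_left _ hCa
          have h9 : ((a + 2) * 2 ^ a + (e + 2)) * 2 ^ e ≤ ((e + 2) * 2 ^ a) * 2 ^ e :=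
            Nat.mul_le_mul_right _ h6
          nlinarith [h8, h9]
        exact Nat.le_of_mul_le_mul_left h7 (Nat.two_pow_pos _)
    have h10 : (e + 2) * C.card ≤ (e + 2) * (C'.card + 1) := Nat.mul_le_mul_left _ hCC'
    nlinarith [hgoal, h10]

theorem code_transport {J J' R : Type} {M : R → J → Bool} {t m : ℕ} (h : Code M t m)
    (φ : J' ≃ J) : Code (fun x (j : J') => M x (φ j)) t m := by
  intro T C hT2 hTinj hcons
  have h1 := h T (C.map φ.toEmbedding) hT2 hTinj ?_
  · rwa [card_map] at h1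
  · intro a ha b hb j hj
    rw [mem_map] at hj
    obtain ⟨j', hj', rfl⟩ := hj
    exact hcons a ha b hb j' hj'

end CodeSec

section GQ

variable {F : Type} [Field F]

/-- The quadratic form. -/
def Qf (d : F) (a : F × F) : F := a.1 ^ 2 + a.1 * a.2 + d * a.2 ^ 2

/-- Its bilinear form. -/
def Bf (d : F) (a b : F × F) : F := 2 * a.1 * b.1 + a.1 * b.2 + a.2 * b.1 + 2 * d * a.2 * b.2

/-- The affine points `(α, c, β)`. -/
abbrev Aff (F : Type) : Type := (F × F) × F × (F × F)

/-- The points. -/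
abbrev Pt (F : Type) : Type := Unit ⊕ ((Option F × (F × F)) ⊕ Aff F)

/-- The lines. -/
abbrev Li (F : Type) : Type := Option F ⊕ (Option F × (F × F) × F)

/-- First label of the line of type `o` through an affine point. -/
def vp (p : Aff F) : Option F → F × F
  | none => p.1
  | some t => (p.2.2.1 - t * p.1.1, p.2.2.2 - t * p.1.2)

/-- Second label of the line of type `o` through an affine point. -/
def ep (d : F) (p : Aff F) : Option F → F
  | none => p.2.1
  | some t => p.2.1 - Bf d (p.2.2.1 - t * p.1.1, p.2.2.2 - t * p.1.2) p.1 - t * Qf d p.1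

/-- The lines through a point. -/
def lnG (d : F) : Pt F → Option F → Li F
  | Sum.inl _, t => Sum.inl t
  | Sum.inr (Sum.inl a), none => Sum.inl a.1
  | Sum.inr (Sum.inl a), some e => Sum.inr (a.1, a.2, e)
  | Sum.inr (Sum.inr p), o => Sum.inr (o, vp p o, ep d p o)

theorem aniso {d : F} (hd : ∀ x : F, x ^ 2 + x + d ≠ 0) (a1 a2 : F) (h : Qf d (a1, a2) = 0) :
    a1 = 0 ∧ a2 = 0 := by
  unfold Qf at h
  simp only at h
  by_cases h2 : a2 = 0
  · subst h2
    refine ⟨?_, rfl⟩
    have : a1 ^ 2 = 0 := by linear_combination h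
    exact pow_eq_zero_iff (two_ne_zero) |>.1 this
  · exfalso
    apply hd (a1 / a2)
    field_simp
    linear_combination h

theorem rel_some {d : F} {p q : Aff F} {u : F} (hv : vp p (some u) = vp q (some u))
    (he : ep d p (some u) = ep d q (some u)) :
    q.2.2.1 = p.2.2.1 + u * (q.1.1 - p.1.1) ∧ q.2.2.2 = p.2.2.2 + u * (q.1.2 - p.1.2) ∧
    q.2.1 = p.2.1 + Bf d p.2.2 (q.1.1 - p.1.1, q.1.2 - p.1.2) +
      u * Qf d (q.1.1 - p.1.1, q.1.2 - p.1.2) := by
  obtain ⟨⟨a1, a2⟩, c, b1, b2⟩ := p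
  obtain ⟨⟨a1', a2'⟩, c', b1', b2'⟩ := q
  simp only [vp, ep, Prod.mk.injEq, Bf, Qf] at hv he ⊢
  obtain ⟨hv1, hv2⟩ := hv
  refine ⟨?_, ?_, ?_⟩
  · linear_combination -hv1
  · linear_combination -hv2
  · linear_combination -he - (2 * a1' + a2') * hv1 - (a1' + 2 * d * a2') * hv2

theorem aff2 {d : F} {p q : Aff F} {o o' : Option F} (hoo : o ≠ o') (h1 : vp p o = vp q o)
    (h2 : vp p o' = vp q o') (h3 : ep d p o' = ep d q o') : p = q := by
  obtain ⟨⟨a1, a2⟩, c, b1, b2⟩ := p
  obtain ⟨⟨a1', a2'⟩, c', b1', b2'⟩ := q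
  rcases o with _ | u <;> rcases o' with _ | v
  · exact absurd rfl hoo
  · simp only [vp, ep, Prod.mk.injEq, Bf, Qf] at h1 h2 h3
    obtain ⟨rfl, rfl⟩ := h1
    obtain ⟨h21, h22⟩ := h2
    have e1 : b1 = b1' := by linear_combination h21
    have e2 : b2 = b2' := by linear_combination h22
    subst e1
    subst e2
    have e3 : c = c' := by linear_combination h3
    rw [e3]
  · simp only [vp, ep, Prod.mk.injEq] at h1 h2 h3
    obtain ⟨rfl, rfl⟩ := h2
    subst h3
    obtain ⟨h11, h12⟩ := h1
    have e1 : b1 = b1' := by linear_combination h11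
    have e2 : b2 = b2' := by linear_combination h12
    rw [e1, e2]
  · simp only [vp, ep, Prod.mk.injEq, Bf, Qf] at h1 h2 h3
    obtain ⟨h11, h12⟩ := h1
    obtain ⟨h21, h22⟩ := h2
    have huv : u - v ≠ 0 := fun h => hoo (by rw [sub_eq_zero.1 h])
    have e1 : (u - v) * (a1 - a1') = 0 := by linear_combination h21 - h11
    have e2 : (u - v) * (a2 - a2') = 0 := by linear_combination h22 - h12
    have e1' : a1 = a1' := sub_eq_zero.1 ((mul_eq_zero.1 e1).resolve_left huv)
    have e2' : a2 = a2' := sub_eq_zero.1 ((mul_eq_zero.1 e2).resolve_left huv)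
    subst e1'
    subst e2'
    have e3 : b1 = b1' := by linear_combination h21
    have e4 : b2 = b2' := by linear_combination h22
    subst e3
    subst e4
    have e5 : c = c' := by linear_combination h3
    rw [e5]

/-- The triangle condition, three finite types. -/
theorem aff3_fff {d : F} (hd : ∀ x : F, x ^ 2 + x + d ≠ 0) {p q r : Aff F} {u v w : F}
    (huv : u ≠ v) (huw : u ≠ w)
    (h1 : vp p (some u) = vp q (some u)) (h1' : ep d p (some u) = ep d q (some u))
    (h2 : vp q (some v) = vp r (some v)) (h2' : ep d q (some v) = ep d r (some v))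
    (h3 : vp p (some w) = vp r (some w)) (h3' : ep d p (some w) = ep d r (some w)) :
    p = q := by
  obtain ⟨e1, e2, e3⟩ := rel_some h1 h1'
  obtain ⟨f1, f2, f3⟩ := rel_some h2 h2'
  obtain ⟨g1, g2, g3⟩ := rel_some h3 h3'
  have hQ : (u - w) * (u - v) * Qf d (q.1.1 - p.1.1, q.1.2 - p.1.2) = 0 := by
    obtain ⟨⟨a1, a2⟩, c, b1, b2⟩ := p
    obtain ⟨⟨a1', a2'⟩, c', b1', b2'⟩ := q
    obtain ⟨⟨a1'', a2''⟩, c'', b1'', b2''⟩ := r
    simp only [Bf, Qf] at e1 e2 e3 f1 f2 f3 g1 g2 g3 ⊢
    obtain ⟨G1, hG1⟩ : ∃ G1, G1 = a1' - a1 := ⟨_, rfl⟩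
    obtain ⟨G2, hG2⟩ : ∃ G2, G2 = a2' - a2 := ⟨_, rfl⟩
    obtain ⟨H1, hH1⟩ : ∃ H1, H1 = a1'' - a1' := ⟨_, rfl⟩
    obtain ⟨H2, hH2⟩ : ∃ H2, H2 = a2'' - a2' := ⟨_, rfl⟩
    have ha1' : a1' = a1 + G1 := by rw [hG1]; ring
    have ha2' : a2' = a2 + G2 := by rw [hG2]; ring
    have ha1'' : a1'' = a1 + G1 + H1 := by rw [hG1, hH1]; ring
    have ha2'' : a2'' = a2 + G2 + H2 := by rw [hG2, hH2]; ring
    subst ha1' ha2' ha1'' ha2''
    subst e1 e2 e3 f1 f2 f3
    have X1 : (u - w) * G1 - (w - v) * H1 = 0 := by linear_combination g1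
    have X2 : (u - w) * G2 - (w - v) * H2 = 0 := by linear_combination g2
    have E2 : (u - w) * (G1 ^ 2 + G1 * G2 + d * G2 ^ 2) +
        (u - w) * (2 * G1 * H1 + G1 * H2 + G2 * H1 + 2 * d * G2 * H2) +
        (v - w) * (H1 ^ 2 + H1 * H2 + d * H2 ^ 2) = 0 := by linear_combination g3
    linear_combination (w - v) * E2 + (((u - w) * G1 - (w - v) * H1) +
      ((u - w) * G2 - (w - v) * H2)) * X1 + d * ((u - w) * G2 - (w - v) * H2) * X2
  have hne : (u - w) * (u - v) ≠ 0 := mul_ne_zero (sub_ne_zero.2 huw) (sub_ne_zero.2 huv)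
  have hQ' := (mul_eq_zero.1 hQ).resolve_left hne
  obtain ⟨k1, k2⟩ := aniso hd _ _ hQ'
  have l1 : q.1.1 = p.1.1 := sub_eq_zero.1 k1
  have l2 : q.1.2 = p.1.2 := sub_eq_zero.1 k2
  obtain ⟨⟨a1, a2⟩, c, b1, b2⟩ := p
  obtain ⟨⟨a1', a2'⟩, c', b1', b2'⟩ := q
  simp only [Bf, Qf] at l1 l2 e1 e2 e3
  subst l1 l2
  have m1 : b1' = b1 := by rw [e1]; ring
  have m2 : b2' = b2 := by rw [e2]; ring
  have m3 : c' = c := by rw [e3]; ring
  rw [m1, m2, m3]

/-- The triangle condition, one infinite type. -/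
theorem aff3_nff {d : F} (hd : ∀ x : F, x ^ 2 + x + d ≠ 0) {p q r : Aff F} {v w : F}
    (hvw : v ≠ w) (h1 : vp p none = vp q none) (h1' : ep d p none = ep d q none)
    (h2 : vp q (some v) = vp r (some v)) (h2' : ep d q (some v) = ep d r (some v))
    (h3 : vp p (some w) = vp r (some w)) (h3' : ep d p (some w) = ep d r (some w)) :
    p = r := by
  obtain ⟨f1, f2, f3⟩ := rel_some h2 h2'
  obtain ⟨g1, g2, g3⟩ := rel_some h3 h3'
  have hQ : (w - v) * Qf d (r.1.1 - p.1.1, r.1.2 - p.1.2) = 0 := by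
    obtain ⟨⟨a1, a2⟩, c, b1, b2⟩ := p
    obtain ⟨⟨a1', a2'⟩, c', b1', b2'⟩ := q
    obtain ⟨⟨a1'', a2''⟩, c'', b1'', b2''⟩ := r
    simp only [vp, ep, Prod.mk.injEq] at h1 h1'
    obtain ⟨rfl, rfl⟩ := h1
    subst h1'
    simp only [Bf, Qf] at f1 f2 f3 g1 g2 g3 ⊢
    subst g1 g2 g3
    linear_combination -f3 + (2 * (a1'' - a1) + (a2'' - a2)) * f1 +
      ((a1'' - a1) + 2 * d * (a2'' - a2)) * f2
  have hne : (w - v) ≠ 0 := sub_ne_zero.2 hvw.symm
  have hQ' := (mul_eq_zero.1 hQ).resolve_left hne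
  obtain ⟨k1, k2⟩ := aniso hd _ _ hQ'
  have l1 : r.1.1 = p.1.1 := sub_eq_zero.1 k1
  have l2 : r.1.2 = p.1.2 := sub_eq_zero.1 k2
  obtain ⟨⟨a1, a2⟩, c, b1, b2⟩ := p
  obtain ⟨⟨a1', a2'⟩, c', b1', b2'⟩ := r
  simp only [Bf, Qf] at l1 l2 g1 g2 g3
  subst l1 l2
  have m1 : b1' = b1 := by rw [g1]; ring
  have m2 : b2' = b2 := by rw [g2]; ring
  have m3 : c' = c := by rw [g3]; ring
  rw [m1, m2, m3]

theorem aff3 {d : F} (hd : ∀ x : F, x ^ 2 + x + d ≠ 0) {p q r : Aff F} {o1 o2 o3 : Option F}
    (h12 : o1 ≠ o2) (h23 : o2 ≠ o3) (h13 : o1 ≠ o3) (hpq : p ≠ q) (hpr : p ≠ r)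
    (a1 : vp p o1 = vp q o1) (a2 : ep d p o1 = ep d q o1)
    (b1 : vp q o2 = vp r o2) (b2 : ep d q o2 = ep d r o2)
    (c1 : vp p o3 = vp r o3) (c2 : ep d p o3 = ep d r o3) : False := by
  rcases o1 with _ | u <;> rcases o2 with _ | v <;> rcases o3 with _ | w
  · exact h12 rfl
  · exact h12 rfl
  · exact h13 rfl
  · exact hpr (aff3_nff hd (fun h => h23 (by rw [h])) a1 a2 b1 b2 c1 c2)
  · exact h23 rfl
  · -- q r infinite, p q type u, p r type w
    exact hpq.symm (aff3_nff hd (fun h => h13 (by rw [h])) b1 b2 c1.symm c2.symm a1.symm a2.symm)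
  · -- p r infinite
    exact hpq (aff3_nff hd (fun h => h12 (by rw [h])) c1 c2 b1.symm b2.symm a1 a2)
  · exact hpq (aff3_fff hd (fun h => h12 (by rw [h])) (fun h => h13 (by rw [h])) a1 a2 b1 b2 c1 c2)

/-- The points of a line. -/
def ptL (d : F) : Li F → Option (F × F) → Pt F
  | Sum.inl _, none => Sum.inl ()
  | Sum.inl t, some b => Sum.inr (Sum.inl (t, b))
  | Sum.inr l, none => Sum.inr (Sum.inl (l.1, l.2.1))
  | Sum.inr (none, b, e), some z => Sum.inr (Sum.inr (b, e, z))
  | Sum.inr (some t, b, e), some a =>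
      Sum.inr (Sum.inr (a, e + Bf d b a + t * Qf d a, (b.1 + t * a.1, b.2 + t * a.2)))

theorem ptL_inj (d : F) (l : Li F) : Function.Injective (ptL d l) := by
  intro o o' h
  rcases l with t | ⟨_ | t, b, e⟩ <;> rcases o with _ | z <;> rcases o' with _ | z'
  · rfl
  · simp [ptL] at h
  · simp [ptL] at h
  · simp only [ptL, Sum.inr.injEq, Sum.inl.injEq, Prod.mk.injEq, true_and] at h
    rw [h]
  · rfl
  · simp [ptL] at h
  · simp [ptL] at h
  · simp only [ptL, Sum.inr.injEq, Prod.mk.injEq, true_and] at h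
    rw [h]
  · rfl
  · simp [ptL] at h
  · simp [ptL] at h
  · simp only [ptL, Sum.inr.injEq, Prod.mk.injEq] at h
    rw [h.1]

theorem mem_ptL (d : F) (l : Li F) (x : Pt F) : (∃ j, lnG d x j = l) ↔ ∃ o, ptL d l o = x := by
  constructor
  · rintro ⟨j, rfl⟩
    rcases x with ⟨⟩ | (⟨t, b⟩ | ⟨⟨a1, a2⟩, c, b1, b2⟩)
    · exact ⟨none, rfl⟩
    · rcases j with _ | e
      · exact ⟨some b, rfl⟩
      · exact ⟨none, rfl⟩
    · rcases j with _ | t
      · exact ⟨some (b1, b2), rfl⟩
      · refine ⟨some (a1, a2), ?_⟩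
        simp only [lnG, ptL, vp, ep, Sum.inr.injEq, Prod.mk.injEq, true_and]
        refine ⟨by ring, by ring, by ring⟩
  · rintro ⟨o, rfl⟩
    rcases l with t | ⟨t, b, e⟩
    · rcases o with _ | z
      · exact ⟨t, rfl⟩
      · exact ⟨none, rfl⟩
    · rcases o with _ | z
      · exact ⟨some e, rfl⟩
      · rcases t with _ | t
        · exact ⟨none, rfl⟩
        · obtain ⟨z1, z2⟩ := z
          obtain ⟨b1, b2⟩ := b
          refine ⟨some t, ?_⟩
          simp only [lnG, ptL, vp, ep, Bf, Qf, Sum.inr.injEq, Prod.mk.injEq, true_and]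
          refine ⟨⟨by ring, by ring⟩, by ring⟩

theorem lnG_lin {d : F} (x y : Pt F) (j j' i i' : Option F) (hxy : x ≠ y)
    (h1 : lnG d x j = lnG d y j') (h2 : lnG d x i = lnG d y i') : j = i := by
  rcases x with ⟨⟩ | (⟨t, b⟩ | p) <;> rcases y with ⟨⟩ | (⟨t', b'⟩ | p')
  · exact absurd rfl hxy
  · rcases j' with _ | e <;> rcases i' with _ | e'
    · simp only [lnG, Sum.inl.injEq] at h1 h2
      rw [h1, h2]
    · simp [lnG] at h2
    · simp [lnG] at h1
    · simp [lnG] at h1
  · simp [lnG] at h1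
  · rcases j with _ | e <;> rcases i with _ | e'
    · rfl
    · simp [lnG] at h2
    · simp [lnG] at h1
    · simp [lnG] at h1
  · rcases j with _ | e
    · rcases i with _ | e'
      · rfl
      · exfalso
        rcases i' with _ | e''
        · simp [lnG] at h2
        · simp only [lnG, Sum.inr.injEq, Prod.mk.injEq] at h2
          apply hxy
          rw [h2.1, h2.2.1]
    · exfalso
      rcases j' with _ | e''
      · simp [lnG] at h1
      · simp only [lnG, Sum.inr.injEq, Prod.mk.injEq] at h1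
        apply hxy
        rw [h1.1, h1.2.1]
  · rcases j with _ | e
    · simp [lnG] at h1
    · rcases i with _ | e'
      · simp [lnG] at h2
      · simp only [lnG, Sum.inr.injEq, Prod.mk.injEq] at h1 h2
        rw [h1.2.2, h2.2.2, ← h1.1, ← h2.1]
  · simp [lnG] at h1
  · rcases j' with _ | e <;> rcases i' with _ | e'
    · simp [lnG] at h1
    · simp [lnG] at h1
    · simp [lnG] at h2
    · simp only [lnG, Sum.inr.injEq, Prod.mk.injEq] at h1 h2
      rw [h1.1, h2.1]
  · simp only [lnG, Sum.inr.injEq, Prod.mk.injEq] at h1 h2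
    obtain ⟨rfl, h11, h12⟩ := h1
    obtain ⟨rfl, h21, h22⟩ := h2
    by_contra hji
    apply hxy
    rw [aff2 hji h11 h21 h22]

theorem lnG_inj {d : F} (x : Pt F) (j j' : Option F) (h : lnG d x j = lnG d x j') : j = j' := by
  rcases x with ⟨⟩ | (⟨t, b⟩ | p)
  · simpa [lnG] using h
  · rcases j with _ | e <;> rcases j' with _ | e'
    · rfl
    · simp [lnG] at h
    · simp [lnG] at h
    · simp only [lnG, Sum.inr.injEq, Prod.mk.injEq, true_and] at h
      rw [h]
  · simp only [lnG, Sum.inr.injEq, Prod.mk.injEq] at h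
    exact h.1

/-- A line through a point of the second kind and an affine point. -/
theorem lnG_mix {d : F} {t : Option F} {b : F × F} {p : Aff F} {j j' : Option F}
    (h : lnG d (Sum.inr (Sum.inl (t, b))) j = lnG d (Sum.inr (Sum.inr p)) j') :
    j' = t ∧ vp p t = b ∧ j = some (ep d p t) := by
  rcases j with _ | e
  · simp [lnG] at h
  · simp only [lnG, Sum.inr.injEq, Prod.mk.injEq] at h
    obtain ⟨rfl, h2, h3⟩ := h
    exact ⟨rfl, h2.symm, by rw [h3]⟩

/-- A line through two points of the second kind. -/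
theorem lnG_two {d : F} {t t' : Option F} {b b' : F × F} {j j' : Option F}
    (hne : (Sum.inr (Sum.inl (t, b)) : Pt F) ≠ Sum.inr (Sum.inl (t', b')))
    (h : lnG d (Sum.inr (Sum.inl (t, b))) j = lnG d (Sum.inr (Sum.inl (t', b'))) j') :
    t = t' ∧ j = none ∧ j' = none := by
  rcases j with _ | e <;> rcases j' with _ | e'
  · simp only [lnG, Sum.inl.injEq] at h
    exact ⟨h, rfl, rfl⟩
  · simp [lnG] at h
  · simp [lnG] at h
  · exfalso
    simp only [lnG, Sum.inr.injEq, Prod.mk.injEq] at h
    apply hne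
    rw [h.1, h.2.1]

theorem lnG_tri {d : F} (hd : ∀ x : F, x ^ 2 + x + d ≠ 0) (x y z : Pt F)
    (j1 j2 i1 i2 k1 k2 : Option F) (hxy : x ≠ y) (hyz : y ≠ z) (hxz : x ≠ z)
    (h1 : lnG d x j1 = lnG d y j2) (h2 : lnG d y i1 = lnG d z i2)
    (h3 : lnG d x k1 = lnG d z k2) : j1 = k1 := by
  rcases x with ⟨⟩ | (⟨t, b⟩ | p) <;> rcases y with ⟨⟩ | (⟨t', b'⟩ | p') <;>
    rcases z with ⟨⟩ | (⟨t'', b''⟩ | p'')
  -- x infinite
  · exact absurd rfl hxy
  · exact absurd rfl hxy
  · exact absurd rfl hxy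
  · exact absurd rfl hxz
  · obtain ⟨e1, -, -⟩ := lnG_two hyz h2
    rcases j2 with _ | e <;> rcases k2 with _ | e'
    · simp only [lnG, Sum.inl.injEq] at h1 h3
      rw [h1, h3, e1]
    · simp [lnG] at h3
    · simp [lnG] at h1
    · simp [lnG] at h1
  · simp [lnG] at h3
  · simp [lnG] at h1
  · simp [lnG] at h1
  · simp [lnG] at h1
  -- x of the second kind
  · exact absurd rfl hyz
  · obtain ⟨-, e2, -⟩ := lnG_two hxz h3
    rcases j1 with _ | e
    · rw [e2]
    · simp [lnG] at h1
  · simp [lnG] at h2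
  · obtain ⟨-, e2, -⟩ := lnG_two hxy h1
    rcases k1 with _ | e
    · rw [e2]
    · simp [lnG] at h3
  · obtain ⟨-, e2, -⟩ := lnG_two hxy h1
    obtain ⟨-, e3, -⟩ := lnG_two hxz h3
    rw [e2, e3]
  · exfalso
    obtain ⟨e1, -, -⟩ := lnG_two hxy h1
    obtain ⟨-, f2, -⟩ := lnG_mix h2
    obtain ⟨-, g2, -⟩ := lnG_mix h3
    apply hxy
    rw [← f2, ← g2, e1]
  · simp [lnG] at h2
  · exfalso
    obtain ⟨e1, -, -⟩ := lnG_two hxz h3
    obtain ⟨-, f2, -⟩ := lnG_mix h2.symm
    obtain ⟨-, g2, -⟩ := lnG_mix h1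
    apply hxz
    rw [← f2, ← g2, e1]
  · obtain ⟨e1, e2, e3⟩ := lnG_mix h1
    obtain ⟨f1, f2, f3⟩ := lnG_mix h3
    simp only [lnG, Sum.inr.injEq, Prod.mk.injEq] at h2
    obtain ⟨g1, g2, g3⟩ := h2
    subst g1
    by_cases hit : t = i1
    · subst hit
      rw [e3, f3, g3]
    · exfalso
      apply hyz
      rw [aff2 hit (e2.trans f2.symm) g2 g3]
  -- x affine
  · exact absurd rfl hyz
  · simp [lnG] at h1
  · simp [lnG] at h1
  · simp [lnG] at h3
  · exfalso
    obtain ⟨e1, -, -⟩ := lnG_two hyz h2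
    obtain ⟨-, f2, -⟩ := lnG_mix h1.symm
    obtain ⟨-, g2, -⟩ := lnG_mix h3.symm
    apply hyz
    rw [← f2, ← g2, e1]
  · obtain ⟨e1, e2, e3⟩ := lnG_mix h1.symm
    obtain ⟨f1, f2, f3⟩ := lnG_mix h2
    simp only [lnG, Sum.inr.injEq, Prod.mk.injEq] at h3
    obtain ⟨g1, g2, g3⟩ := h3
    subst g1
    by_cases hit : t' = k1
    · rw [e1, hit]
    · exfalso
      apply hxz
      rw [aff2 hit (e2.trans f2.symm) g2 g3]
  · simp [lnG] at h3
  · obtain ⟨e1, e2, e3⟩ := lnG_mix h3.symm
    obtain ⟨f1, f2, f3⟩ := lnG_mix h2.symm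
    simp only [lnG, Sum.inr.injEq, Prod.mk.injEq] at h1
    obtain ⟨g1, g2, g3⟩ := h1
    subst g1
    by_cases hit : t'' = j1
    · rw [e1, hit]
    · exfalso
      apply hxy
      rw [aff2 hit (e2.trans f2.symm) g2 g3]
  · simp only [lnG, Sum.inr.injEq, Prod.mk.injEq] at h1 h2 h3
    obtain ⟨rfl, a1, a2⟩ := h1
    obtain ⟨rfl, b1, b2⟩ := h2
    obtain ⟨rfl, c1, c2⟩ := h3
    by_contra hjk
    have npq : p ≠ p' := fun h => hxy (by rw [h])
    have nqr : p' ≠ p'' := fun h => hyz (by rw [h])
    have npr : p ≠ p'' := fun h => hxz (by rw [h])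
    by_cases hji : j1 = i1
    · subst hji
      exact npr (aff2 hjk (a1.trans b1) c1 c2)
    · by_cases hik : i1 = k1
      · subst hik
        exact npq (aff2 (Ne.symm hjk) (c1.trans b1.symm) a1 a2)
      · exact aff3 hd hji hik hjk npq npr a1 a2 b1 b2 c1 c2

theorem geoG [Fintype F] {d : F} (hd : ∀ x : F, x ^ 2 + x + d ≠ 0) {q : ℕ}
    (hq : Fintype.card F = q) : Geo (lnG d) (q ^ 2) q where
  cardJ := by rw [Fintype.card_option, hq]
  cardL := by
    simp only [Li, Fintype.card_sum, Fintype.card_option, Fintype.card_prod, hq]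
    ring
  inj := lnG_inj
  lin := lnG_lin
  tri := lnG_tri hd
  size := by
    intro l
    have h2 : (univ.image (ptL d l)).card = q ^ 2 + 1 := by
      rw [card_image_of_injective _ (ptL_inj d l), card_univ, Fintype.card_option,
        Fintype.card_prod, hq]
      ring
    rw [← h2]
    congr 1
    ext x
    constructor
    · intro hx
      simp only [mem_filter, mem_univ, true_and] at hx
      obtain ⟨o, ho⟩ := (mem_ptL d l x).1 hx
      exact mem_image.2 ⟨o, mem_univ _, ho⟩
    · intro hx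
      obtain ⟨o, -, ho⟩ := mem_image.1 hx
      simp only [mem_filter, mem_univ, true_and]
      exact (mem_ptL d l x).2 ⟨o, ho⟩

theorem exists_d [Fintype F] : ∃ d : F, ∀ x : F, x ^ 2 + x + d ≠ 0 := by
  have h1 : ¬ Function.Injective (fun x : F => x ^ 2 + x) := by
    intro h
    have h2 : (0 : F) = -1 := h (by simp)
    have h3 : (1 : F) = 0 := by linear_combination h2
    exact one_ne_zero h3
  have h2 : ¬ Function.Surjective (fun x : F => x ^ 2 + x) := by
    intro h
    exact h1 (Finite.injective_iff_surjective.2 h)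
  unfold Function.Surjective at h2
  push Not at h2
  obtain ⟨c, hc⟩ := h2
  refine ⟨-c, fun x hx => hc x ?_⟩
  linear_combination hx

theorem card_Pt [Fintype F] {q : ℕ} (hq : Fintype.card F = q) :
    Fintype.card (Pt F) = (q ^ 2 + 1) * (q ^ 3 + 1) := by
  simp only [Pt, Aff, Fintype.card_sum, Fintype.card_option, Fintype.card_prod, hq,
    Fintype.card_unit]
  ring

end GQ

section Final

theorem tight_of {V : Type} [Fintype V] (A : V → V → Prop) (k n : ℕ)
    (hsymm : ∀ x y, A x y → A y x) (hirr : ∀ x, ¬ A x x)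
    (htri : ∀ x y z, A x y → A y z → A x z → False)
    (hreg : ∀ x, (univ.filter (fun y => A x y)).card = k)
    (hind : ∀ I : Finset V, (∀ u ∈ I, ∀ v ∈ I, ¬ A u v) → I.card ≤ k)
    (hn : Fintype.card V = n) (hpos : 0 < n) : ∃ G : SimpleGraph (Fin n), Tight G k := by
  have e : V ≃ Fin n := Fintype.equivFinOfCardEq hn
  let G : SimpleGraph (Fin n) :=
    { Adj := fun x y => A (e.symm x) (e.symm y)
      symm := ⟨fun x y hxy => hsymm _ _ hxy⟩
      loopless := ⟨fun x hx => hirr _ hx⟩ }
  have hadj : ∀ x y, G.Adj x y ↔ A (e.symm x) (e.symm y) := fun _ _ => Iff.rfl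
  have hregG : ∀ v : Fin n, (G.neighborSet v).ncard = k := by
    intro v
    have h2 : G.neighborSet v = (((univ.filter (fun y => A (e.symm v) y)).map e.toEmbedding :
        Finset (Fin n)) : Set (Fin n)) := by
      ext w
      rw [SimpleGraph.mem_neighborSet, hadj, Finset.mem_coe, mem_map]
      constructor
      · intro h
        exact ⟨e.symm w, mem_filter.2 ⟨mem_univ _, h⟩, by simp⟩
      · rintro ⟨y, hy, rfl⟩
        rw [mem_filter] at hy
        simpa using hy.2
    rw [h2, Set.ncard_coe_finset, card_map, hreg]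
  refine ⟨G, hregG, ?_, ?_⟩
  · intro s hs
    rw [SimpleGraph.is3Clique_iff] at hs
    obtain ⟨a, b, c, hab, hac, hbc, -⟩ := hs
    exact htri _ _ _ hab hbc hac
  · apply le_antisymm
    · obtain ⟨s, hs⟩ := G.exists_isNIndepSet_indepNum
      rw [← hs.card_eq, ← card_map e.symm.toEmbedding]
      apply hind
      intro u hu v hv
      rw [mem_map] at hu hv
      obtain ⟨x, hx, rfl⟩ := hu
      obtain ⟨y, hy, rfl⟩ := hv
      by_cases hxy : x = y
      · subst hxy
        exact hirr _
      · exact hs.isIndepSet hx hy hxy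
    · let v : Fin n := ⟨0, hpos⟩
      have h1 : G.IsIndepSet ((univ.filter (fun y => A (e.symm v) y)).map e.toEmbedding :
          Finset (Fin n)) := by
        intro x hx y hy _ hxy
        rw [Finset.mem_coe, mem_map] at hx hy
        obtain ⟨x', hx', rfl⟩ := hx
        obtain ⟨y', hy', rfl⟩ := hy
        rw [mem_filter] at hx' hy'
        rw [hadj] at hxy
        simp only [Equiv.coe_toEmbedding, Equiv.symm_apply_apply] at hxy
        exact htri _ _ _ hx'.2 hxy hy'.2
      have h2 := h1.card_le_indepNum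
      rwa [card_map, hreg] at h2

theorem arith1 (b : ℕ) (hb : 5 ≤ b) : 2 * b + 5 ≤ 2 ^ (b - 1) := by
  induction b, hb using Nat.le_induction with
  | base => norm_num
  | succ n hn ih =>
    have h1 : n + 1 - 1 = (n - 1) + 1 := by omega
    rw [h1, pow_succ]
    omega

theorem arith2 (e : ℕ) (he : 8 ≤ e) : 12 * e + 11 ≤ 2 ^ (e - 1) := by
  induction e, he using Nat.le_induction with
  | base => norm_num
  | succ n hn ih =>
    have h1 : n + 1 - 1 = (n - 1) + 1 := by omega
    rw [h1, pow_succ]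
    omega

theorem arith3 (b : ℕ) (hb : 5 ≤ b) : b + 27 ≤ 2 ^ b := by
  induction b, hb using Nat.le_induction with
  | base => norm_num
  | succ n hn ih =>
    rw [pow_succ]
    omega

/-- The main construction. -/
theorem exists_tight (b : ℕ) (hb : 5 ≤ b) (e : ℕ) (he : e + 2 = 2 ^ b) :
    ∃ G : SimpleGraph (Fin (2 * 2 ^ b * (((2 ^ e) ^ 2 + 1) * ((2 ^ e) ^ 3 + 1)))),
      Tight G (2 ^ b * ((2 ^ e + 1) * (2 ^ e) ^ 2) + 1) := by
  have h3 := arith3 b hb
  have hbe : b + 25 ≤ e := by omega
  have : Fact (Nat.Prime 2) := ⟨Nat.prime_two⟩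
  let F : Type := GaloisField 2 e
  have : Fintype F := Fintype.ofFinite F
  have hF : Fintype.card F = 2 ^ e := by
    rw [← Nat.card_eq_fintype_card]
    exact GaloisField.card 2 e (by omega)
  obtain ⟨d, hd⟩ := exists_d (F := F)
  have hG := geoG hd hF
  -- the code
  let z0 : Fin e := ⟨0, by omega⟩
  let z1 : Fin e := ⟨1, by omega⟩
  have h01 : z0 ≠ z1 := by
    intro h
    have := congrArg Fin.val h
    simp [z0, z1] at this
  have hcard : Fintype.card (Option F) = Fintype.card (Option (Fin e → Bool)) := by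
    rw [Fintype.card_option, Fintype.card_option, hF, Fintype.card_fun, Fintype.card_bool,
      Fintype.card_fin]
  let φ : Option F ≃ Option (Fin e → Bool) := Fintype.equivOfCardEq hcard
  have hcode := code_transport (code_M0 (e := e) (z0 := z0) (z1 := z1) (by omega) h01) φ
  set M : Option (Option (Fin e)) → Option F → Bool := fun x j => M0 z0 z1 x (φ j) with hM
  rw [he] at hcode
  have hR : Fintype.card (Option (Option (Fin e))) = 2 ^ b := by
    rw [Fintype.card_option, Fintype.card_option, Fintype.card_fin, ← he]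
  -- the signs
  have htk : 2 ^ e = 2 ^ b * 2 ^ (e - b) := by
    rw [← pow_add]
    congr 1
    omega
  have hk0 : 2 ^ (e - b) ≤ 2 ^ e + 1 := by
    have : 2 ^ (e - b) ≤ 2 ^ e := Nat.pow_le_pow_right (by norm_num) (by omega)
    omega
  have hw : (2 ^ e + 1 - 2 ^ (e - b)) + 2 ^ (e - b) = 2 ^ e + 1 := Nat.sub_add_cancel hk0
  have hc : 2 * ((5 * e + b + 5 + (b + 2) * 2 ^ (e - b)) + 1) ≤ 2 ^ e + 1 - 2 ^ (e - b) := by
    have a1 := arith1 b hb
    have a2 := arith2 e (by omega)
    have a3 : (2 * b + 5) * 2 ^ (e - b) ≤ 2 ^ (b - 1) * 2 ^ (e - b) := Nat.mul_le_mul_right _ a1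
    have a4 : 2 ^ (b - 1) * 2 ^ (e - b) = 2 ^ (e - 1) := by
      rw [← pow_add]
      congr 1
      omega
    have a5 : 2 ^ e = 2 ^ (e - 1) + 2 ^ (e - 1) := by
      have : e = (e - 1) + 1 := by omega
      rw [this, pow_succ]
      simp only [Nat.add_sub_cancel]
      ring
    rw [a4] at a3
    have a6 : 2 * ((5 * e + b + 5 + (b + 2) * 2 ^ (e - b)) + 1) + 2 ^ (e - b) ≤ 2 ^ e + 1 := by
      rw [a5]
      nlinarith [a1, a2, a3, hbe]
    omega
  have hK : Fintype.card (Pt F) * ((univ.filter (fun C : Finset (Option F) =>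
      2 ^ b * (2 ^ e + 1) < 2 ^ e + 2 ^ b * C.card)).card *
      Fintype.card (Option (Option (Fin e)) × Bool)) ≤
      2 ^ (5 * e + b + 5 + (b + 2) * 2 ^ (e - b)) := by
    have c1 : Fintype.card (Pt F) ≤ 2 ^ (5 * e + 2) := by
      rw [card_Pt hF]
      have d1 : (2 ^ e) ^ 2 + 1 ≤ 2 ^ (2 * e + 1) := by
        rw [← pow_mul, pow_succ, mul_comm e 2]
        have := Nat.one_le_two_pow (n := 2 * e)
        omega
      have d2 : (2 ^ e) ^ 3 + 1 ≤ 2 ^ (3 * e + 1) := by
        rw [← pow_mul, pow_succ, mul_comm e 3]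
        have := Nat.one_le_two_pow (n := 3 * e)
        omega
      calc ((2 ^ e) ^ 2 + 1) * ((2 ^ e) ^ 3 + 1) ≤ 2 ^ (2 * e + 1) * 2 ^ (3 * e + 1) :=
            Nat.mul_le_mul d1 d2
        _ = 2 ^ (5 * e + 2) := by rw [← pow_add]; congr 1; ring
    have c2 := card_K (J := Option F) (t := 2 ^ e) (m := 2 ^ b) (k0 := 2 ^ (e - b))
      (w := 2 ^ e + 1 - 2 ^ (e - b)) (b := b) (by rw [Fintype.card_option, hF]) rfl htk hw
    have c3 : Fintype.card (Option (Option (Fin e)) × Bool) = 2 ^ (b + 1) := by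
      rw [Fintype.card_prod, hR, Fintype.card_bool, pow_succ]
    rw [c3]
    calc _ ≤ 2 ^ (5 * e + 2) * (2 ^ ((b + 2) * 2 ^ (e - b) + 2) * 2 ^ (b + 1)) :=
          Nat.mul_le_mul c1 (Nat.mul_le_mul_right _ c2)
      _ = 2 ^ (5 * e + b + 5 + (b + 2) * 2 ^ (e - b)) := by
          rw [← pow_add, ← pow_add]
          congr 1
          ring
  obtain ⟨r, hr⟩ := exists_signs (lnG d) M (t := 2 ^ e) (m := 2 ^ b) (k0 := 2 ^ (e - b))
    (w := 2 ^ e + 1 - 2 ^ (e - b)) (c := 5 * e + b + 5 + (b + 2) * 2 ^ (e - b))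
    htk hw hc hK
  apply tight_of (V := Pt F × Option (Option (Fin e)) × Bool) (Ad (lnG d) M r)
  · exact Ad_symm
  · exact Ad_irr
  · exact Ad_tri hG
  · intro u
    rw [← hR]
    exact card_nbr hG u
  · intro I hI
    exact ind_bound hG (Nat.one_le_pow _ _ (Nat.two_pow_pos e)) (Nat.one_le_two_pow) hR hcode hr
      I hI
  · rw [Fintype.card_prod, Fintype.card_prod, hR, Fintype.card_bool, card_Pt hF]
    ring
  · positivity

theorem sq_le_pow (b : ℕ) (hb : 5 ≤ b) : b ^ 2 ≤ 2 ^ b := by
  induction b, hb using Nat.le_induction with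
  | base => norm_num
  | succ n hn ih =>
    rw [pow_succ 2 n]
    nlinarith [ih, hn]

theorem le_n (m q : ℕ) : 2 * m * q ^ 5 ≤ 2 * m * ((q ^ 2 + 1) * (q ^ 3 + 1)) := by
  apply Nat.mul_le_mul_left
  nlinarith [Nat.zero_le (q ^ 2), Nat.zero_le (q ^ 3)]

theorem k_le (m q : ℕ) (hm : 1 ≤ m) (hq : 2 ≤ q) : m * ((q + 1) * q ^ 2) + 1 ≤ 2 * m * q ^ 3 := by
  have h1 : q ^ 2 + 1 ≤ q ^ 3 := by nlinarith [hq, Nat.mul_le_mul hq hq]
  have h2 : m * (q ^ 2 + 1) ≤ m * q ^ 3 := Nat.mul_le_mul_left _ h1
  nlinarith [h2, hm]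

/-- The bound with a logarithm. -/
theorem fifth_power (b e : ℕ) (hb : 5 ≤ b) (he : e + 2 = 2 ^ b) :
    (2 ^ b * ((2 ^ e + 1) * (2 ^ e) ^ 2) + 1) ^ 5 ≤
      (2 * 2 ^ b * (((2 ^ e) ^ 2 + 1) * ((2 ^ e) ^ 3 + 1))) ^ 3 *
        (Nat.log 2 (2 * 2 ^ b * (((2 ^ e) ^ 2 + 1) * ((2 ^ e) ^ 3 + 1)))) ^ 2 := by
  have h3 := arith3 b hb
  have hk := k_le (2 ^ b) (2 ^ e) Nat.one_le_two_pow
    (by calc 2 = 2 ^ 1 := rfl
          _ ≤ 2 ^ e := Nat.pow_le_pow_right (by norm_num) (by omega))
  have hn := le_n (2 ^ b) (2 ^ e)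
  set n := 2 * 2 ^ b * (((2 ^ e) ^ 2 + 1) * ((2 ^ e) ^ 3 + 1)) with hn'
  have hlog : 2 * 2 ^ b ≤ Nat.log 2 n := by
    apply Nat.le_log_of_pow_le (by norm_num)
    calc 2 ^ (2 * 2 ^ b) ≤ 2 ^ (e * 5) := Nat.pow_le_pow_right (by norm_num) (by omega)
      _ = (2 ^ e) ^ 5 := by rw [pow_mul]
      _ ≤ 2 * 2 ^ b * (2 ^ e) ^ 5 := Nat.le_mul_of_pos_left _ (by positivity)
      _ ≤ n := hn
  calc (2 ^ b * ((2 ^ e + 1) * (2 ^ e) ^ 2) + 1) ^ 5 ≤ (2 * 2 ^ b * (2 ^ e) ^ 3) ^ 5 :=
        Nat.pow_le_pow_left hk 5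
    _ = (2 * 2 ^ b * (2 ^ e) ^ 5) ^ 3 * (2 * 2 ^ b) ^ 2 := by ring
    _ ≤ n ^ 3 * (Nat.log 2 n) ^ 2 :=
        Nat.mul_le_mul (Nat.pow_le_pow_left hn 3) (Nat.pow_le_pow_left hlog 2)

/-- The bound with an epsilon. -/
theorem eps_bound (x : ℝ) (hx : 0 < x) (b e : ℕ) (hb : 5 ≤ b) (he : e + 2 = 2 ^ b)
    (hbx : 1 ≤ x * b) :
    ((2 ^ b * ((2 ^ e + 1) * (2 ^ e) ^ 2) + 1 : ℕ) : ℝ) <
      ((2 * 2 ^ b * (((2 ^ e) ^ 2 + 1) * ((2 ^ e) ^ 3 + 1)) : ℕ) : ℝ) ^ (3 / 5 + x : ℝ) := by
  have h3 := arith3 b hb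
  have hk := k_le (2 ^ b) (2 ^ e) Nat.one_le_two_pow
    (by calc 2 = 2 ^ 1 := rfl
          _ ≤ 2 ^ e := Nat.pow_le_pow_right (by norm_num) (by omega))
  have hn := le_n (2 ^ b) (2 ^ e)
  have hn2 : (2 : ℕ) ^ (5 * e) < 2 * 2 ^ b * (((2 ^ e) ^ 2 + 1) * ((2 ^ e) ^ 3 + 1)) := by
    refine lt_of_lt_of_le ?_ hn
    rw [mul_comm 5 e, pow_mul]
    have h4 : 0 < (2 ^ e) ^ 5 := by positivity
    have h5 : 1 ≤ 2 ^ b := Nat.one_le_two_pow
    nlinarith [h4, h5]
  have hk2 : 2 ^ b * ((2 ^ e + 1) * (2 ^ e) ^ 2) + 1 ≤ 2 ^ (b + 1 + 3 * e) := by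
    refine hk.trans_eq ?_
    rw [← pow_mul, pow_add, pow_succ, mul_comm e 3, mul_comm 2 (2 ^ b)]
  have hsq := sq_le_pow b hb
  have hmain : ((b + 1 + 3 * e : ℕ) : ℝ) ≤ ((5 * e : ℕ) : ℝ) * (3 / 5 + x) := by
    have h6 : (b + 2) * b ≤ 2 * e := by
      have h7 : e + 2 = 2 ^ b := he
      nlinarith [hsq, hb]
    have h8 : (((b + 2) * b : ℕ) : ℝ) ≤ ((2 * e : ℕ) : ℝ) := by exact_mod_cast h6
    push_cast at h8 ⊢
    have h9 : (b + 2 : ℝ) ≤ x * ((b + 2) * b) := by
      have h10 : (0 : ℝ) < b + 2 := by positivity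
      nlinarith [hbx, h10]
    have h11 : x * (((b : ℝ) + 2) * b) ≤ x * (2 * e) := mul_le_mul_of_nonneg_left h8 hx.le
    have h12 : (0 : ℝ) ≤ x * e := by positivity
    nlinarith [h9, h11, h12]
  calc ((2 ^ b * ((2 ^ e + 1) * (2 ^ e) ^ 2) + 1 : ℕ) : ℝ) ≤ ((2 ^ (b + 1 + 3 * e) : ℕ) : ℝ) := by
        exact_mod_cast hk2
    _ = (2 : ℝ) ^ ((b + 1 + 3 * e : ℕ) : ℝ) := by
        rw [Real.rpow_natCast]
        push_cast
        rfl
    _ ≤ (2 : ℝ) ^ (((5 * e : ℕ) : ℝ) * (3 / 5 + x)) :=
        Real.rpow_le_rpow_of_exponent_le (by norm_num) hmain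
    _ = ((2 : ℝ) ^ (5 * e : ℕ)) ^ (3 / 5 + x : ℝ) := by
        rw [Real.rpow_mul (by norm_num), Real.rpow_natCast]
    _ < _ := by
        apply Real.rpow_lt_rpow (by positivity) _ (by positivity)
        exact_mod_cast hn2

/-- There are tight graphs with `n = 2 m (q ^ 2 + 1) (q ^ 3 + 1)` vertices of degree
`k = m q ^ 2 (q + 1) + 1`, where `m = 2 ^ b`, `q = 2 ^ (m - 2)` and `b` is at least `5`. Hence, for
infinitely many `n`, some tight graph on `n` vertices has degree at most
`n ^ (3 / 5) * (log n) ^ (2 / 5)`. -/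
theorem result :
    (∀ b e : ℕ, 5 ≤ b → e + 2 = 2 ^ b →
      ∃ G : SimpleGraph (Fin (2 * 2 ^ b * (((2 ^ e) ^ 2 + 1) * ((2 ^ e) ^ 3 + 1)))),
        Tight G (2 ^ b * ((2 ^ e + 1) * (2 ^ e) ^ 2) + 1)) ∧
    (∀ N : ℕ, ∃ n ≥ N, ∃ k : ℕ, ∃ G : SimpleGraph (Fin n), Tight G k ∧
      k ^ 5 ≤ n ^ 3 * (Nat.log 2 n) ^ 2) ∧
    (∀ x : ℝ, 0 < x → ∀ N : ℕ, ∃ n ≥ N, ∃ k : ℕ, ∃ G : SimpleGraph (Fin n), Tight G k ∧
      (k : ℝ) < (n : ℝ) ^ (3 / 5 + x : ℝ)) := by
  have hge : ∀ N b e : ℕ, N ≤ b →
      N ≤ 2 * 2 ^ b * (((2 ^ e) ^ 2 + 1) * ((2 ^ e) ^ 3 + 1)) := by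
    intro N b e hNb
    have h1 : b < 2 ^ b := Nat.lt_two_pow_self
    have h2 : 2 ^ b * 1 ≤ 2 ^ b * (2 * (((2 ^ e) ^ 2 + 1) * ((2 ^ e) ^ 3 + 1))) := by
      apply Nat.mul_le_mul_left
      apply Nat.one_le_iff_ne_zero.2
      positivity
    calc N ≤ 2 ^ b * 1 := by omega
      _ ≤ _ := h2
      _ = _ := by ring
  refine ⟨fun b e hb he => exists_tight b hb e he, ?_, ?_⟩
  · intro N
    have hb : 5 ≤ max 5 N := le_max_left _ _
    have h3 := arith3 (max 5 N) hb
    have he : (2 ^ (max 5 N) - 2) + 2 = 2 ^ (max 5 N) := by omega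
    obtain ⟨G, hG⟩ := exists_tight (max 5 N) hb _ he
    exact ⟨_, hge N _ _ (le_max_right _ _), _, G, hG, fifth_power _ _ hb he⟩
  · intro x hx N
    set b := max 5 (max N ⌈1 / x⌉₊) with hbdef
    have hb : 5 ≤ b := le_max_left _ _
    have h3 := arith3 b hb
    have he : (2 ^ b - 2) + 2 = 2 ^ b := by omega
    obtain ⟨G, hG⟩ := exists_tight b hb _ he
    refine ⟨_, hge N _ _ ((le_max_left _ _).trans (le_max_right _ _)), _, G, hG,
      eps_bound x hx b _ hb he ?_⟩
    have h4 : (1 / x) ≤ (b : ℝ) := by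
      refine (Nat.le_ceil _).trans ?_
      exact_mod_cast (le_max_right _ _).trans (le_max_right _ _)
    rw [div_le_iff₀ hx] at h4
    linarith

end Final

end

end Pool.Agent.Results.MP_ce98d8_co.ThreeFifths
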