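import Mathlib

set_option autoImplicit false

namespace Pool.Agent.Results.MP_ce98d8_co.TightExponent

open Finset

structure Good {V : Type} [Fintype V] [DecidableEq V] (A : V → V → Bool) (h : V → V) (d : ℕ) :
    Prop where
  symm : ∀ x y, A x y = true → A y x = true
  tri : ∀ x y z, A x y = true → A y z = true → A x z = true → False
  inv : ∀ x, h (h x) = x
  aut : ∀ x y, A (h x) (h y) = A x y
  adj : ∀ x, A x (h x) = true
  reg : ∀ x, (univ.filter (fun y => A x y = true)).card = d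
  ind : ∀ s : Finset V, (∀ x ∈ s, ∀ y ∈ s, A x y = false) → s.card ≤ d

/-- h to the power e. -/
def hp {V : Type} (h : V → V) (e : Bool) (x : V) : V := if e then h x else x

/-- The new vertex set. -/
abbrev NV (V : Type) : Type := Fin 3 × Fin 3 × Bool × V

/-- The new adjacency. -/
def NA {V : Type} (A : V → V → Bool) (h : V → V) (u w : NV V) : Bool :=
  if u.1 = w.1 then
    (if u.2.1 = w.2.1 then (if u.2.2.1 = w.2.2.1 then A u.2.2.2 w.2.2.2 else false)
      else A u.2.2.2 w.2.2.2)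
  else
    (if u.2.1 = w.2.1 then A (hp h u.2.2.1 u.2.2.2) (hp h w.2.2.1 w.2.2.2) else false)

/-- The new involution. -/
def nh {V : Type} (h : V → V) (u : NV V) : NV V := (u.1, u.2.1, u.2.2.1, h u.2.2.2)

section Step

variable {V : Type} [Fintype V] [DecidableEq V] {A : V → V → Bool} {h : V → V} {d : ℕ}

theorem hp_aut (H : Good A h d) (e : Bool) (x y : V) : A (hp h e x) (hp h e y) = A x y := by
  cases e
  · simp [hp]
  · simp [hp, H.aut]

theorem hp_inv (H : Good A h d) (e : Bool) (x : V) : hp h e (hp h e x) = x := by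
  cases e
  · simp [hp]
  · simp [hp, H.inv]

theorem irr (H : Good A h d) (x : V) : A x x = false := by
  by_contra hx
  have hx' : A x x = true := by simpa using hx
  exact H.tri x x x hx' hx' hx'

theorem NA_iff (u w : NV V) : NA A h u w = true ↔
    (u.1 = w.1 ∧ u.2.1 = w.2.1 ∧ u.2.2.1 = w.2.2.1 ∧ A u.2.2.2 w.2.2.2 = true) ∨
    (u.1 = w.1 ∧ u.2.1 ≠ w.2.1 ∧ A u.2.2.2 w.2.2.2 = true) ∨
    (u.1 ≠ w.1 ∧ u.2.1 = w.2.1 ∧ A (hp h u.2.2.1 u.2.2.2) (hp h w.2.2.1 w.2.2.2) = true) := by
  unfold NA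
  by_cases hi : u.1 = w.1
  · by_cases hj : u.2.1 = w.2.1
    · by_cases he : u.2.2.1 = w.2.2.1
      · simp [hi, hj, he]
      · simp [hi, hj, he]
    · simp [hi, hj]
  · by_cases hj : u.2.1 = w.2.1
    · simp [hi, hj]
    · simp [hi, hj]

theorem step_symm (H : Good A h d) (u w : NV V) (huw : NA A h u w = true) :
    NA A h w u = true := by
  rw [NA_iff] at huw ⊢
  rcases huw with ⟨a, b, c, e⟩ | ⟨a, b, e⟩ | ⟨a, b, e⟩
  · exact Or.inl ⟨a.symm, b.symm, c.symm, H.symm _ _ e⟩
  · exact Or.inr (Or.inl ⟨a.symm, fun h => b h.symm, H.symm _ _ e⟩)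
  · exact Or.inr (Or.inr ⟨fun h => a h.symm, b.symm, H.symm _ _ e⟩)

/-- adjacency inside one row is adjacency of row labels -/
theorem row_lab (u w : NV V) (h1 : u.1 = w.1) (huw : NA A h u w = true) :
    A u.2.2.2 w.2.2.2 = true := by
  rw [NA_iff] at huw
  rcases huw with ⟨a, b, c, e⟩ | ⟨a, b, e⟩ | ⟨a, b, e⟩
  · exact e
  · exact e
  · exact absurd h1 a

theorem col_lab (H : Good A h d) (u w : NV V) (h1 : u.2.1 = w.2.1) (huw : NA A h u w = true) :
    A (hp h u.2.2.1 u.2.2.2) (hp h w.2.2.1 w.2.2.2) = true := by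
  rw [NA_iff] at huw
  rcases huw with ⟨a, b, c, e⟩ | ⟨a, b, e⟩ | ⟨a, b, e⟩
  · rw [c, hp_aut H]; exact e
  · exact absurd h1 b
  · exact e

theorem same_line (u w : NV V) (huw : NA A h u w = true) : u.1 = w.1 ∨ u.2.1 = w.2.1 := by
  rw [NA_iff] at huw
  rcases huw with ⟨a, b, c, e⟩ | ⟨a, b, e⟩ | ⟨a, b, e⟩
  · exact Or.inl a
  · exact Or.inl a
  · exact Or.inr b

theorem step_tri (H : Good A h d) (u v w : NV V) (huv : NA A h u v = true)
    (hvw : NA A h v w = true) (huw : NA A h u w = true) : False := by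
  by_cases hr : u.1 = v.1 ∧ v.1 = w.1
  · exact H.tri _ _ _ (row_lab u v hr.1 huv) (row_lab v w hr.2 hvw)
      (row_lab u w (hr.1.trans hr.2) huw)
  · by_cases hc : u.2.1 = v.2.1 ∧ v.2.1 = w.2.1
    · exact H.tri _ _ _ (col_lab H u v hc.1 huv) (col_lab H v w hc.2 hvw)
        (col_lab H u w (hc.1.trans hc.2) huw)
    · have h1 := same_line u v huv
      have h2 := same_line v w hvw
      have h3 := same_line u w huw
      have e1 := huv
      have e2 := hvw
      have e3 := huw
      rcases h1 with h1 | h1 <;> rcases h2 with h2 | h2 <;> rcases h3 with h3 | h3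
      · exact hr ⟨h1, h2⟩
      · exact hr ⟨h1, h2⟩
      · exact hr ⟨h1, h1.symm.trans h3⟩
      · exact hc ⟨h3.trans h2.symm, h2⟩
      · exact hr ⟨h3.trans h2.symm, h2⟩
      · exact hc ⟨h1, h1.symm.trans h3⟩
      · exact hc ⟨h1, h2⟩
      · exact hc ⟨h1, h2⟩

theorem card_nbr_hp (H : Good A h d) (e : Bool) (z : V) :
    (univ.filter (fun y => A z (hp h e y) = true)).card = d := by
  rw [← H.reg z]
  apply card_bij (fun y _ => hp h e y)
  · intro a ha
    simpa using ha
  · intro a _ b _ hab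
    have := congrArg (hp h e) hab
    rwa [hp_inv H, hp_inv H] at this
  · intro b hb
    refine ⟨hp h e b, ?_, hp_inv H e b⟩
    simp only [mem_filter, mem_univ, true_and] at hb ⊢
    rw [hp_inv H]
    exact hb

theorem step_reg (H : Good A h d) (u : NV V) :
    (univ.filter (fun w => NA A h u w = true)).card = 9 * d := by
  obtain ⟨i, j, e, x⟩ := u
  rw [card_filter, Fintype.sum_prod_type]
  have key : ∀ (i' j' : Fin 3) (e' : Bool),
      (∑ y : V, if NA A h (i, j, e, x) (i', j', e', y) = true then 1 else 0) =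
      if i = i' then (if j = j' then (if e = e' then d else 0) else d)
      else (if j = j' then d else 0) := by
    intro i' j' e'
    rw [← card_filter]
    by_cases hi : i = i'
    · by_cases hj : j = j'
      · by_cases he : e = e'
        · simp only [NA, hi, hj, he, if_true]
          exact H.reg x
        · simp [NA, hi, hj, he]
      · simp only [NA, hi, hj, if_true, if_false]
        exact H.reg x
    · by_cases hj : j = j'
      · simp only [NA, hi, hj, if_true, if_false]
        exact card_nbr_hp H e' _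
      · simp [NA, hi, hj]
  simp only [Fintype.sum_prod_type, key]
  fin_cases i <;> fin_cases j <;> cases e <;> simp [Fin.sum_univ_three] <;> ring

theorem step_inv (H : Good A h d) (u : NV V) : nh h (nh h u) = u := by
  obtain ⟨i, j, e, x⟩ := u
  simp [nh, H.inv]

theorem step_aut (H : Good A h d) (u w : NV V) : NA A h (nh h u) (nh h w) = NA A h u w := by
  obtain ⟨i, j, e, x⟩ := u
  obtain ⟨i', j', e', x'⟩ := w
  have hc : hp h e (h x) = h (hp h e x) := by cases e <;> simp [hp]
  have hc' : hp h e' (h x') = h (hp h e' x') := by cases e' <;> simp [hp]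
  simp only [NA, nh, H.aut, hc, hc']

theorem step_adj (H : Good A h d) (u : NV V) : NA A h u (nh h u) = true := by
  simp [NA, nh, H.adj]


/-! Independence number of the new graph. -/

open Classical in
/-- The row set. -/
noncomputable def Js (I : Finset (NV V)) (i : Fin 3) (e : Bool) : Finset V :=
  univ.filter (fun x => (∃ j, (i, j, e, x) ∈ I) ∨
    ∃ j j' e1 e2, j ≠ j' ∧ (i, j, e1, x) ∈ I ∧ (i, j', e2, x) ∈ I)

open Classical in
/-- The column set. -/
noncomputable def Ks (h : V → V) (I : Finset (NV V)) (j : Fin 3) (e : Bool) : Finset V :=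
  univ.filter (fun y => (∃ i, (i, j, e, hp h e y) ∈ I) ∨
    ∃ i i' e1 e2, i ≠ i' ∧ (i, j, e1, hp h e1 y) ∈ I ∧ (i', j, e2, hp h e2 y) ∈ I)

theorem no_row {I : Finset (NV V)} (hI : ∀ u ∈ I, ∀ w ∈ I, NA A h u w = false)
    {i j j' : Fin 3} {e e' : Bool} {x y : V} (h1 : (i, j, e, x) ∈ I) (h2 : (i, j', e', y) ∈ I)
    (hj : j ≠ j') : A x y = false := by
  by_contra hc
  have hc' : A x y = true := by simpa using hc
  have h3 := hI _ h1 _ h2
  have h4 : NA A h (i, j, e, x) (i, j', e', y) = true :=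
    (NA_iff _ _).2 (Or.inr (Or.inl ⟨rfl, hj, hc'⟩))
  rw [h3] at h4
  exact absurd h4 (by decide)

theorem no_cell {I : Finset (NV V)} (hI : ∀ u ∈ I, ∀ w ∈ I, NA A h u w = false)
    {i j : Fin 3} {e : Bool} {x y : V} (h1 : (i, j, e, x) ∈ I) (h2 : (i, j, e, y) ∈ I) :
    A x y = false := by
  by_contra hc
  have hc' : A x y = true := by simpa using hc
  have h3 := hI _ h1 _ h2
  have h4 : NA A h (i, j, e, x) (i, j, e, y) = true :=
    (NA_iff _ _).2 (Or.inl ⟨rfl, rfl, rfl, hc'⟩)
  rw [h3] at h4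
  exact absurd h4 (by decide)

theorem no_col {I : Finset (NV V)} (hI : ∀ u ∈ I, ∀ w ∈ I, NA A h u w = false)
    {i i' j : Fin 3} {e e' : Bool} {x y : V} (h1 : (i, j, e, x) ∈ I) (h2 : (i', j, e', y) ∈ I)
    (hi : i ≠ i') : A (hp h e x) (hp h e' y) = false := by
  by_contra hc
  have hc' : A (hp h e x) (hp h e' y) = true := by simpa using hc
  have h3 := hI _ h1 _ h2
  have h4 : NA A h (i, j, e, x) (i', j, e', y) = true :=
    (NA_iff _ _).2 (Or.inr (Or.inr ⟨hi, rfl, hc'⟩))
  rw [h3] at h4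
  exact absurd h4 (by decide)

theorem Js_card (H : Good A h d) {I : Finset (NV V)}
    (hI : ∀ u ∈ I, ∀ w ∈ I, NA A h u w = false) (i : Fin 3) (e : Bool) :
    (Js I i e).card ≤ d := by
  apply H.ind
  intro x hx y hy
  simp only [Js, mem_filter, mem_univ, true_and] at hx hy
  rcases hy with ⟨j, hy⟩ | ⟨j1, j2, e1, e2, hne, hy1, hy2⟩
  · rcases hx with ⟨j', hx⟩ | ⟨j3, j4, e3, e4, hne', hx3, hx4⟩
    · by_cases hjj : j' = j
      · subst hjj
        exact no_cell hI hx hy
      · exact no_row hI hx hy hjj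
    · by_cases hjj : j3 = j
      · subst hjj
        exact no_row hI hx4 hy (Ne.symm hne')
      · exact no_row hI hx3 hy hjj
  · have : ∃ j e', (i, j, e', x) ∈ I := by
      rcases hx with ⟨j', hx⟩ | ⟨j3, j4, e3, e4, hne', hx3, hx4⟩
      · exact ⟨j', e, hx⟩
      · exact ⟨j3, e3, hx3⟩
    obtain ⟨j, e', hx'⟩ := this
    by_cases hjj : j = j1
    · subst hjj
      exact no_row hI hx' hy2 hne
    · exact no_row hI hx' hy1 hjj

theorem Ks_card (H : Good A h d) {I : Finset (NV V)}
    (hI : ∀ u ∈ I, ∀ w ∈ I, NA A h u w = false) (j : Fin 3) (e : Bool) :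
    (Ks h I j e).card ≤ d := by
  apply H.ind
  intro x hx y hy
  simp only [Ks, mem_filter, mem_univ, true_and] at hx hy
  have cc : ∀ {i i' : Fin 3} {e e' : Bool} {x y : V}, (i, j, e, hp h e x) ∈ I →
      (i', j, e', hp h e' y) ∈ I → i ≠ i' → A x y = false := by
    intro i i' e e' x y h1 h2 hi
    have := no_col hI h1 h2 hi
    rwa [hp_inv H, hp_inv H] at this
  rcases hy with ⟨i, hy⟩ | ⟨i1, i2, e1, e2, hne, hy1, hy2⟩
  · rcases hx with ⟨i', hx⟩ | ⟨i3, i4, e3, e4, hne', hx3, hx4⟩
    · by_cases hii : i' = i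
      · subst hii
        have := no_cell hI hx hy
        rwa [hp_aut H] at this
      · exact cc hx hy hii
    · by_cases hii : i3 = i
      · subst hii
        exact cc hx4 hy (Ne.symm hne')
      · exact cc hx3 hy hii
  · have : ∃ i e', (i, j, e', hp h e' x) ∈ I := by
      rcases hx with ⟨i', hx⟩ | ⟨i3, i4, e3, e4, hne', hx3, hx4⟩
      · exact ⟨i', e, hx⟩
      · exact ⟨i3, e3, hx3⟩
    obtain ⟨i, e', hx'⟩ := this
    by_cases hii : i = i1
    · subst hii
      exact cc hx' hy2 hne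
    · exact cc hx' hy1 hii

/-- Boolean data at the pair x, h x. -/
def Wb (h : V → V) (I : Finset (NV V)) (x : V) (i j : Fin 3) (e : Bool) : Bool :=
  decide ((i, j, e, x) ∈ I ∨ (i, j, e, h x) ∈ I)

noncomputable def Pb (h : V → V) (I : Finset (NV V)) (x : V) (i : Fin 3) (e : Bool) : Bool :=
  decide (x ∈ Js I i e ∨ h x ∈ Js I i e)

noncomputable def Qb (h : V → V) (I : Finset (NV V)) (x : V) (j : Fin 3) (e : Bool) : Bool :=
  decide (x ∈ Ks h I j e ∨ h x ∈ Ks h I j e)

theorem Wb_wit {I : Finset (NV V)} {x : V} {i j : Fin 3} {e : Bool} (hw : Wb h I x i j e = true) :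
    ∃ z, (z = x ∨ z = h x) ∧ (i, j, e, z) ∈ I := by
  simp only [Wb, decide_eq_true_eq] at hw
  rcases hw with hw | hw
  · exact ⟨x, Or.inl rfl, hw⟩
  · exact ⟨h x, Or.inr rfl, hw⟩

theorem pair_eq (H : Good A h d) {x z z' : V} (hz : z = x ∨ z = h x) (hz' : z' = x ∨ z' = h x)
    (hn : A z z' = false) : z = z' := by
  have h1 := H.adj x
  have h2 := H.symm _ _ h1
  rcases hz with rfl | rfl <;> rcases hz' with rfl | rfl
  · rfl
  · rw [h1] at hn; exact absurd hn (by decide)
  · rw [h2] at hn; exact absurd hn (by decide)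
  · rfl

theorem hp_pair (H : Good A h d) (e : Bool) {x z : V} (hz : z = x ∨ z = h x) :
    hp h e z = x ∨ hp h e z = h x := by
  cases e <;> rcases hz with rfl | rfl <;> simp [hp, H.inv]

theorem G1 {I : Finset (NV V)} {x : V} {i j : Fin 3} {e : Bool} (hw : Wb h I x i j e = true) :
    Pb h I x i e = true := by
  obtain ⟨z, hz, hm⟩ := Wb_wit hw
  simp only [Pb, decide_eq_true_eq]
  have : z ∈ Js I i e := by
    simp only [Js, mem_filter, mem_univ, true_and]
    exact Or.inl ⟨j, hm⟩
  rcases hz with rfl | rfl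
  · exact Or.inl this
  · exact Or.inr this

theorem G2 (H : Good A h d) {I : Finset (NV V)} (hI : ∀ u ∈ I, ∀ w ∈ I, NA A h u w = false)
    {x : V} {i j j' : Fin 3} {e e' : Bool} (e'' : Bool)
    (hw : Wb h I x i j e = true) (hw' : Wb h I x i j' e' = true) (hj : j ≠ j') :
    Pb h I x i e'' = true := by
  obtain ⟨z, hz, hm⟩ := Wb_wit hw
  obtain ⟨z', hz', hm'⟩ := Wb_wit hw'
  have heq := pair_eq H hz hz' (no_row hI hm hm' hj)
  subst heq
  simp only [Pb, decide_eq_true_eq]
  have : z ∈ Js I i e'' := by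
    simp only [Js, mem_filter, mem_univ, true_and]
    exact Or.inr ⟨j, j', e, e', hj, hm, hm'⟩
  rcases hz with rfl | rfl
  · exact Or.inl this
  · exact Or.inr this

theorem G1' (H : Good A h d) {I : Finset (NV V)} {x : V} {i j : Fin 3} {e : Bool}
    (hw : Wb h I x i j e = true) : Qb h I x j e = true := by
  obtain ⟨z, hz, hm⟩ := Wb_wit hw
  simp only [Qb, decide_eq_true_eq]
  have : hp h e z ∈ Ks h I j e := by
    simp only [Ks, mem_filter, mem_univ, true_and]
    exact Or.inl ⟨i, by rw [hp_inv H]; exact hm⟩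
  rcases hp_pair H e hz with h1 | h1
  · rw [h1] at this; exact Or.inl this
  · rw [h1] at this; exact Or.inr this

theorem G2' (H : Good A h d) {I : Finset (NV V)} (hI : ∀ u ∈ I, ∀ w ∈ I, NA A h u w = false)
    {x : V} {i i' j : Fin 3} {e e' : Bool} (e'' : Bool)
    (hw : Wb h I x i j e = true) (hw' : Wb h I x i' j e' = true) (hi : i ≠ i') :
    Qb h I x j e'' = true := by
  obtain ⟨z, hz, hm⟩ := Wb_wit hw
  obtain ⟨z', hz', hm'⟩ := Wb_wit hw'
  have heq := pair_eq H (hp_pair H e hz) (hp_pair H e' hz') (no_col hI hm hm' hi)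
  simp only [Qb, decide_eq_true_eq]
  have : hp h e z ∈ Ks h I j e'' := by
    simp only [Ks, mem_filter, mem_univ, true_and]
    refine Or.inr ⟨i, i', e, e', hi, ?_, ?_⟩
    · rw [hp_inv H]; exact hm
    · rw [heq, hp_inv H]; exact hm'
  rcases hp_pair H e hz with h1 | h1
  · rw [h1] at this; exact Or.inl this
  · rw [h1] at this; exact Or.inr this

theorem G3 (H : Good A h d) {I : Finset (NV V)} (hI : ∀ u ∈ I, ∀ w ∈ I, NA A h u w = false)
    {x : V} {i j i' j' : Fin 3} {e' e'' : Bool}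
    (h0 : Wb h I x i j false = true) (h1 : Wb h I x i j true = true)
    (hr : Wb h I x i j' e' = true) (hj : j ≠ j')
    (hc : Wb h I x i' j e'' = true) (hi : i ≠ i') : False := by
  obtain ⟨z0, hz0, m0⟩ := Wb_wit h0
  obtain ⟨z1, hz1, m1⟩ := Wb_wit h1
  obtain ⟨zr, hzr, mr⟩ := Wb_wit hr
  obtain ⟨zc, hzc, mc⟩ := Wb_wit hc
  have e0 := pair_eq H hz0 hzr (no_row hI m0 mr hj)
  have e1 := pair_eq H hz1 hzr (no_row hI m1 mr hj)
  have c0 := pair_eq H (hp_pair H false hz0) (hp_pair H e'' hzc) (no_col hI m0 mc hi)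
  have c1 := pair_eq H (hp_pair H true hz1) (hp_pair H e'' hzc) (no_col hI m1 mc hi)
  have h2 : z0 = z1 := e0.trans e1.symm
  have h3 : hp h false z0 = hp h true z1 := c0.trans c1.symm
  rw [← h2] at h3
  simp only [hp, Bool.false_eq_true, if_false, if_true] at h3
  have h4 := H.adj z0
  rw [← h3, irr H] at h4
  exact absurd h4 (by decide)

def wv (h : V → V) (I : Finset (NV V)) (x : V) (i j : Fin 3) : ℕ :=
  (Wb h I x i j false).toNat + (Wb h I x i j true).toNat

theorem wv_le (I : Finset (NV V)) (x : V) (i j : Fin 3) : wv h I x i j < 3 := by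
  unfold wv
  cases Wb h I x i j false <;> cases Wb h I x i j true <;> simp

theorem wv_pos {I : Finset (NV V)} {x : V} {i j : Fin 3} (hne : wv h I x i j ≠ 0) :
    ∃ e, Wb h I x i j e = true := by
  by_contra hc
  push Not at hc
  apply hne
  unfold wv
  have h0 := hc false
  have h1 := hc true
  simp only [ne_eq, Bool.not_eq_true] at h0 h1
  rw [h0, h1]
  rfl

theorem G3n (H : Good A h d) {I : Finset (NV V)} (hI : ∀ u ∈ I, ∀ w ∈ I, NA A h u w = false)
    (x : V) (i j j1 j2 i1 i2 : Fin 3) (hj1 : j ≠ j1) (hj2 : j ≠ j2) (hi1 : i ≠ i1) (hi2 : i ≠ i2)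
    : (wv h I x i j != 2 || (wv h I x i j1 + wv h I x i j2 == 0) ||
      (wv h I x i1 j + wv h I x i2 j == 0)) = true := by
  by_contra hc
  simp only [Bool.not_eq_true, Bool.or_eq_false_iff, bne_eq_false_iff_eq, beq_eq_false_iff_ne,
    ne_eq, Nat.add_eq_zero_iff, not_and_or] at hc
  obtain ⟨⟨h2, hr⟩, hcc⟩ := hc
  have b0 : Wb h I x i j false = true ∧ Wb h I x i j true = true := by
    unfold wv at h2
    revert h2
    cases Wb h I x i j false <;> cases Wb h I x i j true <;> simp
  have r : ∃ j' e', j ≠ j' ∧ Wb h I x i j' e' = true := by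
    rcases hr with hr | hr
    · obtain ⟨e, he⟩ := wv_pos hr
      exact ⟨j1, e, hj1, he⟩
    · obtain ⟨e, he⟩ := wv_pos hr
      exact ⟨j2, e, hj2, he⟩
  have c : ∃ i' e', i ≠ i' ∧ Wb h I x i' j e' = true := by
    rcases hcc with hr | hr
    · obtain ⟨e, he⟩ := wv_pos hr
      exact ⟨i1, e, hi1, he⟩
    · obtain ⟨e, he⟩ := wv_pos hr
      exact ⟨i2, e, hi2, he⟩
  obtain ⟨j', e', hj', hw'⟩ := r
  obtain ⟨i', e'', hi', hw''⟩ := c
  exact G3 H hI b0.1 b0.2 hw' hj' hw'' hi'

end Step

/-! Finite numerical facts. -/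

def rc (a0 a1 b0 b1 c0 c1 p0 p1 : Bool) : Bool :=
  (!a0 || p0) && (!b0 || p0) && (!c0 || p0) && (!a1 || p1) && (!b1 || p1) && (!c1 || p1) &&
  (!((a0 || a1) && (b0 || b1)) || (p0 && p1)) && (!((a0 || a1) && (c0 || c1)) || (p0 && p1)) &&
  (!((b0 || b1) && (c0 || c1)) || (p0 && p1))

theorem rowlem : ∀ a0 a1 b0 b1 c0 c1 p0 p1 : Bool, rc a0 a1 b0 b1 c0 c1 p0 p1 = true →
    min 2 ((a0.toNat + a1.toNat) + (b0.toNat + b1.toNat) + (c0.toNat + c1.toNat)) ≤
      p0.toNat + p1.toNat := by
  decide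

def chk (a b c d e f g h i : ℕ) : Bool :=
  (a != 2 || (b + c == 0) || (d + g == 0)) &&
  (b != 2 || (a + c == 0) || (e + h == 0)) &&
  (c != 2 || (a + b == 0) || (f + i == 0)) &&
  (d != 2 || (e + f == 0) || (a + g == 0)) &&
  (e != 2 || (d + f == 0) || (b + h == 0)) &&
  (f != 2 || (d + e == 0) || (c + i == 0)) &&
  (g != 2 || (h + i == 0) || (a + d == 0)) &&
  (h != 2 || (g + i == 0) || (b + e == 0)) &&
  (i != 2 || (g + h == 0) || (c + f == 0))

def concl (a b c d e f g h i : ℕ) : Bool :=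
  Nat.ble (4 * (a + b + c + d + e + f + g + h + i))
    (3 * ((min 2 (a + b + c) + min 2 (d + e + f) + min 2 (g + h + i)) +
      (min 2 (a + d + g) + min 2 (b + e + h) + min 2 (c + f + i))))

theorem numeric : ∀ a b c d e f g h i : Fin 3,
    (!chk a.1 b.1 c.1 d.1 e.1 f.1 g.1 h.1 i.1 ||
      concl a.1 b.1 c.1 d.1 e.1 f.1 g.1 h.1 i.1) = true := by
  decide +kernel

section Step2

variable {V : Type} [Fintype V] [DecidableEq V] {A : V → V → Bool} {h : V → V} {d : ℕ}

theorem row_min (H : Good A h d) {I : Finset (NV V)}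
    (hI : ∀ u ∈ I, ∀ w ∈ I, NA A h u w = false) (x : V) (i : Fin 3) :
    min 2 (wv h I x i 0 + wv h I x i 1 + wv h I x i 2) ≤
      (Pb h I x i false).toNat + (Pb h I x i true).toNat := by
  apply rowlem
  have a := @G1 V _ _ h I x i
  have b := fun (j j' : Fin 3) (e e' : Bool) (e'' : Bool) hw hw' hj =>
    @G2 V _ _ A h d H I hI x i j j' e e' e'' hw hw' hj
  have i01 : (0 : Fin 3) ≠ 1 := by decide
  have i02 : (0 : Fin 3) ≠ 2 := by decide
  have i12 : (1 : Fin 3) ≠ 2 := by decide
  have imp : ∀ p q : Bool, (p = true → q = true) → (!p || q) = true := by decide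
  have imp2 : ∀ p0 p1 q0 q1 r0 r1 : Bool, (∀ _ : (p0 = true ∨ p1 = true),
      (q0 = true ∨ q1 = true) → (r0 = true ∧ r1 = true)) →
      (!((p0 || p1) && (q0 || q1)) || (r0 && r1)) = true := by
    intro p0 p1 q0 q1 r0 r1
    cases p0 <;> cases p1 <;> cases q0 <;> cases q1 <;> simp
  have two : ∀ j j' : Fin 3, j ≠ j' →
      (Wb h I x i j false = true ∨ Wb h I x i j true = true) →
      (Wb h I x i j' false = true ∨ Wb h I x i j' true = true) →
      (Pb h I x i false = true ∧ Pb h I x i true = true) := by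
    intro j j' hj h1 h2
    rcases h1 with h1 | h1 <;> rcases h2 with h2 | h2 <;>
      exact ⟨b _ _ _ _ false h1 h2 hj, b _ _ _ _ true h1 h2 hj⟩
  simp only [rc, Bool.and_eq_true]
  refine ⟨⟨⟨⟨⟨⟨⟨⟨?_, ?_⟩, ?_⟩, ?_⟩, ?_⟩, ?_⟩, ?_⟩, ?_⟩, ?_⟩
  · exact imp _ _ (fun hw => a hw)
  · exact imp _ _ (fun hw => a hw)
  · exact imp _ _ (fun hw => a hw)
  · exact imp _ _ (fun hw => a hw)
  · exact imp _ _ (fun hw => a hw)
  · exact imp _ _ (fun hw => a hw)
  · exact imp2 _ _ _ _ _ _ (two 0 1 i01)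
  · exact imp2 _ _ _ _ _ _ (two 0 2 i02)
  · exact imp2 _ _ _ _ _ _ (two 1 2 i12)

theorem col_min (H : Good A h d) {I : Finset (NV V)}
    (hI : ∀ u ∈ I, ∀ w ∈ I, NA A h u w = false) (x : V) (j : Fin 3) :
    min 2 (wv h I x 0 j + wv h I x 1 j + wv h I x 2 j) ≤
      (Qb h I x j false).toNat + (Qb h I x j true).toNat := by
  apply rowlem
  have a := fun (i : Fin 3) (e : Bool) hw => @G1' V _ _ A h d H I x i j e hw
  have b := fun (i i' : Fin 3) (e e' : Bool) (e'' : Bool) hw hw' hi =>
    @G2' V _ _ A h d H I hI x i i' j e e' e'' hw hw' hi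
  have i01 : (0 : Fin 3) ≠ 1 := by decide
  have i02 : (0 : Fin 3) ≠ 2 := by decide
  have i12 : (1 : Fin 3) ≠ 2 := by decide
  have imp : ∀ p q : Bool, (p = true → q = true) → (!p || q) = true := by decide
  have imp2 : ∀ p0 p1 q0 q1 r0 r1 : Bool, (∀ _ : (p0 = true ∨ p1 = true),
      (q0 = true ∨ q1 = true) → (r0 = true ∧ r1 = true)) →
      (!((p0 || p1) && (q0 || q1)) || (r0 && r1)) = true := by
    intro p0 p1 q0 q1 r0 r1
    cases p0 <;> cases p1 <;> cases q0 <;> cases q1 <;> simp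
  have two : ∀ i i' : Fin 3, i ≠ i' →
      (Wb h I x i j false = true ∨ Wb h I x i j true = true) →
      (Wb h I x i' j false = true ∨ Wb h I x i' j true = true) →
      (Qb h I x j false = true ∧ Qb h I x j true = true) := by
    intro i i' hi h1 h2
    rcases h1 with h1 | h1 <;> rcases h2 with h2 | h2 <;>
      exact ⟨b _ _ _ _ false h1 h2 hi, b _ _ _ _ true h1 h2 hi⟩
  simp only [rc, Bool.and_eq_true]
  refine ⟨⟨⟨⟨⟨⟨⟨⟨?_, ?_⟩, ?_⟩, ?_⟩, ?_⟩, ?_⟩, ?_⟩, ?_⟩, ?_⟩
  · exact imp _ _ (fun hw => a _ _ hw)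
  · exact imp _ _ (fun hw => a _ _ hw)
  · exact imp _ _ (fun hw => a _ _ hw)
  · exact imp _ _ (fun hw => a _ _ hw)
  · exact imp _ _ (fun hw => a _ _ hw)
  · exact imp _ _ (fun hw => a _ _ hw)
  · exact imp2 _ _ _ _ _ _ (two 0 1 i01)
  · exact imp2 _ _ _ _ _ _ (two 0 2 i02)
  · exact imp2 _ _ _ _ _ _ (two 1 2 i12)

theorem local_ineq (H : Good A h d) {I : Finset (NV V)}
    (hI : ∀ u ∈ I, ∀ w ∈ I, NA A h u w = false) (x : V) :
    4 * (∑ i, ∑ j, wv h I x i j) ≤
      3 * ((∑ i, ((Pb h I x i false).toNat + (Pb h I x i true).toNat)) +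
        (∑ j, ((Qb h I x j false).toNat + (Qb h I x j true).toNat))) := by
  have i01 : (0 : Fin 3) ≠ 1 := by decide
  have i02 : (0 : Fin 3) ≠ 2 := by decide
  have i12 : (1 : Fin 3) ≠ 2 := by decide
  have g := G3n H hI x
  have hck : chk (wv h I x 0 0) (wv h I x 0 1) (wv h I x 0 2) (wv h I x 1 0) (wv h I x 1 1)
      (wv h I x 1 2) (wv h I x 2 0) (wv h I x 2 1) (wv h I x 2 2) = true := by
    simp only [chk, Bool.and_eq_true]
    refine ⟨⟨⟨⟨⟨⟨⟨⟨?_, ?_⟩, ?_⟩, ?_⟩, ?_⟩, ?_⟩, ?_⟩, ?_⟩, ?_⟩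
    · exact g 0 0 1 2 1 2 i01 i02 i01 i02
    · exact g 0 1 0 2 1 2 i01.symm i12 i01 i02
    · exact g 0 2 0 1 1 2 i02.symm i12.symm i01 i02
    · exact g 1 0 1 2 0 2 i01 i02 i01.symm i12
    · exact g 1 1 0 2 0 2 i01.symm i12 i01.symm i12
    · exact g 1 2 0 1 0 2 i02.symm i12.symm i01.symm i12
    · exact g 2 0 1 2 0 1 i01 i02 i02.symm i12.symm
    · exact g 2 1 0 2 0 1 i01.symm i12 i02.symm i12.symm
    · exact g 2 2 0 1 0 1 i02.symm i12.symm i02.symm i12.symm
  have hn := numeric ⟨_, wv_le (h := h) I x 0 0⟩ ⟨_, wv_le (h := h) I x 0 1⟩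
    ⟨_, wv_le (h := h) I x 0 2⟩ ⟨_, wv_le (h := h) I x 1 0⟩ ⟨_, wv_le (h := h) I x 1 1⟩
    ⟨_, wv_le (h := h) I x 1 2⟩ ⟨_, wv_le (h := h) I x 2 0⟩ ⟨_, wv_le (h := h) I x 2 1⟩
    ⟨_, wv_le (h := h) I x 2 2⟩
  simp only [hck, Bool.not_true, Bool.false_or, concl] at hn
  have hn' := Nat.le_of_ble_eq_true hn
  have r0 := row_min H hI x 0
  have r1 := row_min H hI x 1
  have r2 := row_min H hI x 2
  have c0 := col_min H hI x 0
  have c1 := col_min H hI x 1
  have c2 := col_min H hI x 2
  simp only [Fin.sum_univ_three]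
  omega

theorem step_ind (H : Good A h d) {I : Finset (NV V)}
    (hI : ∀ u ∈ I, ∀ w ∈ I, NA A h u w = false) : I.card ≤ 9 * d := by
  have hsum : 4 * (∑ x : V, ∑ i, ∑ j, wv h I x i j) ≤
      3 * ((∑ x : V, ∑ i, ((Pb h I x i false).toNat + (Pb h I x i true).toNat)) +
        (∑ x : V, ∑ j, ((Qb h I x j false).toNat + (Qb h I x j true).toNat))) := by
    rw [← Finset.sum_add_distrib, Finset.mul_sum, Finset.mul_sum]
    exact Finset.sum_le_sum (fun x _ => local_ineq H hI x)
  have hbij : ∀ f : V → ℕ, ∑ x : V, f (h x) = ∑ x : V, f x := by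
    intro f
    apply Finset.sum_bij (fun x _ => h x)
    · intro a _; exact mem_univ _
    · intro a _ b _ hab
      have := congrArg h hab
      rwa [H.inv, H.inv] at this
    · intro b _
      exact ⟨h b, mem_univ _, H.inv b⟩
    · intro a _; rfl
  have hJ : ∀ S : Finset V, (∑ x : V, (decide (x ∈ S ∨ h x ∈ S)).toNat) ≤ 2 * S.card := by
    intro S
    have h1 : ∀ x : V, (decide (x ∈ S ∨ h x ∈ S)).toNat ≤
        (if x ∈ S then 1 else 0) + (if h x ∈ S then 1 else 0) := by
      intro x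
      by_cases a : x ∈ S <;> by_cases b : h x ∈ S <;> simp [a, b]
    calc (∑ x : V, (decide (x ∈ S ∨ h x ∈ S)).toNat)
        ≤ ∑ x : V, ((if x ∈ S then 1 else 0) + (if h x ∈ S then 1 else 0)) :=
          Finset.sum_le_sum (fun x _ => h1 x)
      _ = (∑ x : V, (if x ∈ S then 1 else 0)) + ∑ x : V, (if h x ∈ S then 1 else 0) :=
          Finset.sum_add_distrib
      _ = (∑ x : V, (if x ∈ S then 1 else 0)) + ∑ x : V, (if x ∈ S then 1 else 0) := by
          rw [hbij (fun x => if x ∈ S then 1 else 0)]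
      _ = 2 * S.card := by
          simp only [Finset.sum_ite_mem, Finset.univ_inter, Finset.sum_const, smul_eq_mul, mul_one]
          ring
  have hP : (∑ x : V, ∑ i, ((Pb h I x i false).toNat + (Pb h I x i true).toNat)) ≤ 12 * d := by
    rw [Finset.sum_comm]
    have : ∀ i : Fin 3, (∑ x : V, ((Pb h I x i false).toNat + (Pb h I x i true).toNat)) ≤ 4 * d := by
      intro i
      rw [Finset.sum_add_distrib]
      have a := hJ (Js I i false)
      have b := hJ (Js I i true)
      have a' := Js_card H hI i false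
      have b' := Js_card H hI i true
      unfold Pb
      omega
    have h0 := this 0
    have h1 := this 1
    have h2 := this 2
    rw [Fin.sum_univ_three]
    omega
  have hQ : (∑ x : V, ∑ j, ((Qb h I x j false).toNat + (Qb h I x j true).toNat)) ≤ 12 * d := by
    rw [Finset.sum_comm]
    have : ∀ i : Fin 3, (∑ x : V, ((Qb h I x i false).toNat + (Qb h I x i true).toNat)) ≤ 4 * d := by
      intro i
      rw [Finset.sum_add_distrib]
      have a := hJ (Ks h I i false)
      have b := hJ (Ks h I i true)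
      have a' := Ks_card H hI i false
      have b' := Ks_card H hI i true
      unfold Qb
      omega
    have h0 := this 0
    have h1 := this 1
    have h2 := this 2
    rw [Fin.sum_univ_three]
    omega
  have hW : 2 * I.card ≤ ∑ x : V, ∑ i, ∑ j, wv h I x i j := by
    have h1 : ∀ (x : V) (i j : Fin 3) (e : Bool), (Wb h I x i j e).toNat =
        (if (i, j, e, x) ∈ I then 1 else 0) + (if (i, j, e, h x) ∈ I then 1 else 0) := by
      intro x i j e
      by_cases a : (i, j, e, x) ∈ I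
      · by_cases b : (i, j, e, h x) ∈ I
        · have h3 := no_cell hI a b
          rw [H.adj x] at h3
          exact absurd h3 (by decide)
        · simp [Wb, a, b]
      · by_cases b : (i, j, e, h x) ∈ I <;> simp [Wb, a, b]
    have h2 : I.card = ∑ i : Fin 3, ∑ j : Fin 3, ∑ e : Bool, ∑ x : V,
        (if (i, j, e, x) ∈ I then 1 else 0) := by
      have : I.card = ∑ u : NV V, (if u ∈ I then 1 else 0) := by
        simp only [Finset.sum_ite_mem, Finset.univ_inter, Finset.sum_const, smul_eq_mul, mul_one]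
      rw [this, Fintype.sum_prod_type]
      simp only [Fintype.sum_prod_type]
    have h3 : ∀ (i j : Fin 3), ∑ x : V, wv h I x i j =
        2 * ∑ e : Bool, ∑ x : V, (if (i, j, e, x) ∈ I then 1 else 0) := by
      intro i j
      have h4 : ∀ e : Bool, ∑ x : V, (Wb h I x i j e).toNat =
          2 * ∑ x : V, (if (i, j, e, x) ∈ I then 1 else 0) := by
        intro e
        simp only [h1]
        rw [Finset.sum_add_distrib, hbij (fun x => if (i, j, e, x) ∈ I then 1 else 0)]
        ring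
      unfold wv
      rw [Finset.sum_add_distrib, h4, h4, Fintype.sum_bool]
      ring
    have h5 : ∑ x : V, ∑ i, ∑ j, wv h I x i j = ∑ i, ∑ j, ∑ x : V, wv h I x i j := by
      rw [Finset.sum_comm]
      exact Finset.sum_congr rfl (fun i _ => Finset.sum_comm)
    rw [h2, h5]
    simp only [h3, Finset.mul_sum]
    exact le_refl _
  omega

theorem step (H : Good A h d) : Good (NA A h) (nh h) (9 * d) where
  symm := step_symm H
  tri := step_tri H
  inv := step_inv H
  aut := step_aut H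
  adj := step_adj H
  reg := step_reg H
  ind := fun _ hs => step_ind H hs

end Step2

/-- All the levels of the recursion. -/
theorem levels (l : ℕ) : ∃ (V : Type) (_ : Fintype V) (_ : DecidableEq V) (A : V → V → Bool)
    (h : V → V), Good A h (9 ^ l) ∧ Fintype.card V = 2 * 18 ^ l := by
  induction l with
  | zero =>
    refine ⟨Bool, inferInstance, inferInstance, fun a b => xor a b, fun a => !a, ?_, ?_⟩
    · refine ⟨by decide, by decide, by decide, by decide, by decide, by decide, ?_⟩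
      intro s hs
      rw [pow_zero, Finset.card_le_one]
      intro a ha b hb
      have := hs a ha b hb
      revert this
      cases a <;> cases b <;> simp
    · simp
  | succ l ih =>
    obtain ⟨V, i1, i2, A, h, H, hc⟩ := ih
    refine ⟨NV V, inferInstance, inferInstance, NA A h, nh h, ?_, ?_⟩
    · have := step H
      rw [pow_succ, mul_comm]
      exact this
    · simp only [NV, Fintype.card_prod, Fintype.card_fin, Fintype.card_bool, hc]
      ring


/-- Relabelling of the vertices. -/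
theorem good_transport {V W : Type} [Fintype V] [DecidableEq V] [Fintype W] [DecidableEq W]
    {A : V → V → Bool} {h : V → V} {d : ℕ} (H : Good A h d) (e : V ≃ W) :
    Good (fun x y : W => A (e.symm x) (e.symm y)) (fun x => e (h (e.symm x))) d where
  symm := fun x y hxy => H.symm _ _ hxy
  tri := fun x y z h1 h2 h3 => H.tri _ _ _ h1 h2 h3
  inv := fun x => by simp [H.inv]
  aut := fun x y => by simp [H.aut]
  adj := fun x => by simpa using H.adj (e.symm x)
  reg := fun x => by
    rw [← H.reg (e.symm x)]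
    apply card_bij (fun y _ => e.symm y)
    · intro a ha
      simpa using ha
    · intro a _ b _ hab
      exact e.symm.injective hab
    · intro b hb
      refine ⟨e b, ?_, by simp⟩
      simpa using hb
  ind := fun s hs => by
    have h1 : (s.map e.symm.toEmbedding).card ≤ d := by
      apply H.ind
      intro x hx y hy
      simp only [mem_map, Equiv.coe_toEmbedding] at hx hy
      obtain ⟨a, ha, rfl⟩ := hx
      obtain ⟨b, hb, rfl⟩ := hy
      exact hs a ha b hb
    rwa [card_map] at h1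

/-! The statement for simple graphs. -/

/-- `G` is tight of degree `k`: every vertex has exactly `k` neighbours, there is no triangle, and
the largest independent set has exactly `k` vertices. -/
def Tight {V : Type} [Fintype V] (G : SimpleGraph V) (k : ℕ) : Prop :=
  (∀ v : V, (G.neighborSet v).ncard = k) ∧ G.CliqueFree 3 ∧ G.indepNum = k

/-- The simple graph of a Boolean adjacency relation. -/
def toGraph {V : Type} [Fintype V] [DecidableEq V] {A : V → V → Bool} {h : V → V} {d : ℕ}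
    (H : Good A h d) : SimpleGraph V where
  Adj x y := A x y = true
  symm := ⟨fun x y hxy => H.symm x y hxy⟩
  loopless := ⟨fun x hx => by rw [irr H x] at hx; exact absurd hx (by decide)⟩

theorem good_tight {V : Type} [Fintype V] [DecidableEq V] [Nonempty V] {A : V → V → Bool}
    {h : V → V} {d : ℕ} (H : Good A h d) : Tight (toGraph H) d := by
  have hreg : ∀ v : V, ((toGraph H).neighborSet v).ncard = d := by
    intro v
    have h1 := H.reg v
    have h2 : (toGraph H).neighborSet v = ((univ.filter (fun y => A v y = true) : Finset V) :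
        Set V) := by
      ext w
      simp [toGraph]
    rw [h2, Set.ncard_coe_finset, h1]
  refine ⟨hreg, ?_, ?_⟩
  · intro s hs
    rw [SimpleGraph.is3Clique_iff] at hs
    obtain ⟨a, b, c, hab, hac, hbc, -⟩ := hs
    exact H.tri a b c hab hbc hac
  · apply le_antisymm
    · obtain ⟨s, hs⟩ := (toGraph H).exists_isNIndepSet_indepNum
      rw [← hs.card_eq]
      apply H.ind
      intro x hx y hy
      by_cases hxy : x = y
      · subst hxy; exact irr H x
      · have := hs.isIndepSet hx hy hxy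
        simpa [toGraph] using this
    · obtain ⟨v⟩ := ‹Nonempty V›
      have h1 : (toGraph H).IsIndepSet (univ.filter (fun y => A v y = true) : Finset V) := by
        intro x hx y hy hxy hadj
        simp only [coe_filter, mem_univ, true_and, Set.mem_setOf_eq] at hx hy
        exact H.tri v x y hx hadj hy
      have h2 := h1.card_le_indepNum
      rwa [H.reg v] at h2

theorem tight_levels (l : ℕ) : ∃ G : SimpleGraph (Fin (2 * 18 ^ l)), Tight G (9 ^ l) := by
  obtain ⟨V, i1, i2, A, h, H, hc⟩ := levels l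
  have e : V ≃ Fin (2 * 18 ^ l) := Fintype.equivFinOfCardEq hc
  have : Nonempty (Fin (2 * 18 ^ l)) := ⟨⟨0, by positivity⟩⟩
  exact ⟨_, good_tight (good_transport H e)⟩

/-- The exponent: `9 = 18 ^ (log 9 / log 18)`. -/
theorem key_bound (l : ℕ) :
    ((9 ^ l : ℕ) : ℝ) < ((2 * 18 ^ l : ℕ) : ℝ) ^ (Real.log 9 / Real.log 18) := by
  have h18 : (0 : ℝ) < Real.log 18 := Real.log_pos (by norm_num)
  have h9 : (0 : ℝ) < Real.log 9 := Real.log_pos (by norm_num)
  have hpos : (0 : ℝ) < Real.log 9 / Real.log 18 := div_pos h9 h18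
  have h1 : (18 : ℝ) ^ (Real.log 9 / Real.log 18) = 9 := by
    rw [Real.rpow_def_of_pos (by norm_num), mul_div_cancel₀ _ h18.ne', Real.exp_log (by norm_num)]
  have h2 : ((9 ^ l : ℕ) : ℝ) = ((18 : ℝ) ^ l) ^ (Real.log 9 / Real.log 18) := by
    rw [← Real.rpow_natCast (18 : ℝ) l, ← Real.rpow_mul (by norm_num), mul_comm,
      Real.rpow_mul (by norm_num), h1, Real.rpow_natCast]
    push_cast
    rfl
  rw [h2]
  apply Real.rpow_lt_rpow (by positivity) _ hpos
  push_cast
  have : (0 : ℝ) < (18 : ℝ) ^ l := by positivity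
  linarith

theorem exponent_lt : Real.log 9 / Real.log 18 < 0.7603 := by
  have h18 : (0 : ℝ) < Real.log 18 := Real.log_pos (by norm_num)
  rw [div_lt_iff₀ h18]
  have h : Real.log ((9 : ℝ) ^ 196) < Real.log ((18 : ℝ) ^ 149) :=
    Real.log_lt_log (by positivity) (by norm_num)
  rw [Real.log_pow, Real.log_pow] at h
  push_cast at h
  linarith

/-- There are tight graphs on `2 * 18 ^ l` vertices of degree `9 ^ l`; hence there are infinitely
many `n` for which some tight graph on `n` vertices has degree less than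
`n ^ (log 9 / log 18) < n ^ 0.7603`. -/
theorem result :
    (∀ l : ℕ, ∃ G : SimpleGraph (Fin (2 * 18 ^ l)), Tight G (9 ^ l)) ∧
    (∀ N : ℕ, ∃ n ≥ N, ∃ k : ℕ, ∃ G : SimpleGraph (Fin n), Tight G k ∧
      (k : ℝ) < (n : ℝ) ^ (Real.log 9 / Real.log 18)) ∧
    Real.log 9 / Real.log 18 < 0.7603 := by
  refine ⟨tight_levels, ?_, exponent_lt⟩
  intro N
  obtain ⟨G, hG⟩ := tight_levels N
  refine ⟨2 * 18 ^ N, ?_, 9 ^ N, G, hG, key_bound N⟩
  have h1 : N < 18 ^ N := Nat.lt_pow_self (by norm_num)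
  omega

end Pool.Agent.Results.MP_ce98d8_co.TightExponent
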